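import Pool.Agent.N367.LE.Stm

/-!
# LE G4 (project LE of helper367, MP_15cb89_nt): small split primes
-/

set_option autoImplicit false

namespace Pool.Agent.N704.LE

open H419R2 Pool.Agent.N911 Pool.Agent.N367.LE

/-- a principal ideal is generated by a natural number or has large norm -/
theorem principal_cases {n : ℕ} (hn : 0 < n) [IsDedekindDomain (QA 1 (n : ℤ))]
    {I : Ideal (QA 1 (n : ℤ))} (hI : I ≠ ⊥) (hp : I.IsPrincipal) :
    (∃ c : ℕ, I = Ideal.span {(c : QA 1 (n : ℤ))}) ∨ n ^ 2 + 4 < 4 * (Ideal.absNorm I) ^ 2 := by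
  obtain ⟨z, hz⟩ := hp.principal
  have hz' : I = Ideal.span {z} := hz
  have hz0 : z ≠ 0 := by
    rintro rfl
    apply hI
    rw [hz']
    simp
  obtain ⟨w, hw, hwz⟩ := (cyc1 n hn).surj hz0
  obtain ⟨t, rfl⟩ := ((cyc1 n hn).dom_iff w).1 hw
  have hN : Ideal.absNorm I = (QuadraticAlgebra.norm ((cyc1 n hn).gen t)).natAbs := by
    rw [hz', ← hwz, Ideal.absNorm_span_singleton, algebra_norm_eq]
  rcases (cyc1 n hn).small_norm t with ⟨j, -, -, h3⟩ | h
  · left
    refine ⟨(t.2.1 : ℕ), ?_⟩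
    rw [hz', ← hwz]
    congr 2
    have h0 : (t.1 : ℕ) = 0 := by
      have h1 : (t.1 : ℕ) < 1 := t.1.2
      omega
    unfold Cyc.gen
    rw [h0, h3]
    unfold Cyc.lc
    rw [mul_zero, Cyc.α_zero]
    ext <;> simp
  · right
    rw [hN]
    have h1 : (((QuadraticAlgebra.norm ((cyc1 n hn).gen t)).natAbs : ℕ) : ℤ) ^ 2 =
        (QuadraticAlgebra.norm ((cyc1 n hn).gen t)) ^ 2 := Int.natAbs_sq _
    have h2 : ((n ^ 2 + 4 : ℕ) : ℤ) <
        ((4 * (QuadraticAlgebra.norm ((cyc1 n hn).gen t)).natAbs ^ 2 : ℕ) : ℤ) := by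
      push_cast
      push_cast at h1
      rw [h1]
      linarith
    exact_mod_cast h2

theorem absNorm_span_nat {n : ℕ} [IsDedekindDomain (QA 1 (n : ℤ))] (c : ℕ) :
    Ideal.absNorm (Ideal.span {(c : QA 1 (n : ℤ))}) = c ^ 2 := by
  rw [Ideal.absNorm_span_singleton, algebra_norm_eq, norm_natCast', Int.natAbs_pow,
    Int.natAbs_natCast]

theorem g4 : S_GR → S_G2 → S_G4 := by
  intro hGR hG2 n p q hn hp hq hpq hp4 hq4 hD h2 r hr hr2 hj hlt
  haveI := h2.ded
  have hn0 : 0 < n := by omega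
  obtain ⟨⟨I, hIr, hIc⟩, -⟩ := And.intro ((hGR n hn r hr hr2).1 hj) trivial
  have hI0 : I ≠ ⊥ := by
    rintro rfl
    rw [Ideal.absNorm_bot] at hIr
    exact hr.ne_zero hIr.symm
  have hnp : ¬ I.IsPrincipal := by
    intro hI
    rcases principal_cases hn0 hI0 hI with ⟨c, hc⟩ | h
    · rw [hc, absNorm_span_nat] at hIr
      have := hr.prime.irreducible.not_isSquare
      exact this ⟨c, by rw [← hIr]; ring⟩
    · rw [hIr] at h
      omega
  have hpr : ¬ p ∣ r := by
    intro h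
    have h1 : p = r := (Nat.prime_dvd_prime_iff_eq hp hr).1 h
    have h3 : jacobiSym ((n : ℤ) ^ 2 + 4) r = 0 := by
      haveI := Fact.mk hr
      rw [← jacobiSym.legendreSym.to_jacobiSym, legendreSym.eq_zero_iff]
      have h4 : ((n : ℤ) ^ 2 + 4) = ((r * q : ℕ) : ℤ) := by
        rw [← h1, ← hD]
        push_cast
        ring
      rw [h4]
      simp
    rw [h3] at hj
    exact absurd hj (by norm_num)
  constructor
  · have h3 := hG2 n p q hn hp hq hpq hp4 hq4 hD h2 I hI0 (by rw [hIr]; exact hpr)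
    rw [hIr] at h3
    have h4 : jacobiSym (r : ℤ) p ≠ 1 := fun h => hnp (h3.2 h)
    have h5 : jacobiSym (r : ℤ) p ≠ 0 := by
      apply jacobiSym.ne_zero
      rw [Int.gcd_natCast_natCast]
      exact ((Nat.Prime.coprime_iff_not_dvd hp).2 hpr).symm
    rcases jacobiSym.trichotomy (r : ℤ) p with h | h | h
    · exact absurd h h5
    · exact absurd h h4
    · exact h
  · have h3 := h2.mp I I hI0 hI0 hnp hnp
    have h4 : I * I ≠ ⊥ := by
      intro h
      rcases mul_eq_zero.1 h with h | h <;> exact hI0 h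
    rcases principal_cases hn0 h4 h3 with ⟨c, hc⟩ | h
    · exact absurd (by rw [pow_two]; exact hc) (hIc c)
    · rw [map_mul, hIr] at h
      calc n ^ 2 + 4 < 4 * (r * r) ^ 2 := h
        _ = 4 * r ^ 4 := by ring

end Pool.Agent.N704.LE
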