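import Pool.Agent.N212.KS.Stm

/-!
# KS/CAN (helper704, project KS of helper212): canonical heights
-/

open Filter Topology

namespace Pool.Agent.N704.KS

open Pool.Agent.N212.KS

universe u v w z

theorem eig {X : Type u} {N : Type v} {G : Type w} {ι : Type z} [TopologicalSpace X]
    [AddCommGroup N] [Module ℝ N] [CommGroup G] [MulAction G X] [Fintype ι]
    {D : HeightData X N} {P : AutData D G} (E : EigenData P ι) (j : ι) (g : G) :
    ∃ C : ℝ, 0 ≤ C ∧ ∀ x, |D.h (E.ℓ j) (g • x) - E.χ j g * D.h (E.ℓ j) x| ≤ C * √(D.H x) := by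
  obtain ⟨C1, h1⟩ := P.h_pull g (E.ℓ j)
  obtain ⟨C2, h2⟩ := D.h_smul (E.χ j g) (E.ℓ j)
  refine ⟨|C1| + |C2|, by positivity, fun x => ?_⟩
  have h3 := h1 x
  have h4 := h2 x
  rw [E.pull_ℓ] at h3
  have hs : 0 ≤ √(D.H x) := Real.sqrt_nonneg _
  have h5 : C1 * √(D.H x) ≤ |C1| * √(D.H x) := mul_le_mul_of_nonneg_right (le_abs_self _) hs
  have h6 : C2 * √(D.H x) ≤ |C2| * √(D.H x) := mul_le_mul_of_nonneg_right (le_abs_self _) hs
  rw [abs_le] at h3 h4 ⊢
  constructor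
  · nlinarith
  · nlinarith

theorem t_CAN (h1 : S_GROW.{z}) (h2 : S_CANS) : S_CAN.{u, v, w, z} := by
  intro X N G ι _ _ _ _ _ _ D P E Z hZ hinv i hg
  obtain ⟨g, hg1, hg2⟩ := hg
  obtain ⟨-, -, A, B, hA, hAB⟩ := hZ
  obtain ⟨lam, hlam⟩ : ∃ lam : ℝ, lam = E.χ i g := ⟨_, rfl⟩
  rw [← hlam] at hg1
  obtain ⟨mu, hmu⟩ : ∃ mu : ℝ, mu = (lam + lam ^ 2) / 2 := ⟨_, rfl⟩
  have hll : lam < lam ^ 2 := by nlinarith
  have hmu1 : lam < mu := by rw [hmu]; linarith
  have hmu2 : mu < lam ^ 2 := by rw [hmu]; linarith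
  have hlam0 : 0 < lam := by linarith
  have hmu0 : 0 < mu := by linarith
  choose Ce hCe0 hCe using fun j => eig E j g
  choose Cb hCb using fun j => D.h_bound (E.ℓ j)
  obtain ⟨C, hC⟩ : ∃ C : ℝ, C = ∑ j, (Ce j + |Cb j|) := ⟨_, rfl⟩
  have hCn : ∀ j, 0 ≤ Ce j + |Cb j| := fun j => add_nonneg (hCe0 j) (abs_nonneg _)
  have hC0 : 0 ≤ C := by rw [hC]; exact Finset.sum_nonneg fun j _ => hCn j
  have hCj : ∀ j, Ce j + |Cb j| ≤ C := by
    intro j
    rw [hC]
    exact Finset.single_le_sum (f := fun j => Ce j + |Cb j|) (fun j _ => hCn j) (Finset.mem_univ j)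
  obtain ⟨K, hK0, hK⟩ := h1 (fun j => E.χ j g) A B C lam mu hA hC0 (by
    intro j
    refine ⟨E.χ_pos j g, ?_⟩
    by_cases hj : j = i
    · subst hj; exact hlam.ge
    · exact (hg2 j hj).trans hg1.le) hg1.le hmu1
  obtain ⟨C', hC'⟩ := h2 C K lam mu hC0 hK0 hlam0 hmu0 hmu2
  have hH0 : ∀ x, 0 ≤ D.H x := fun x => le_trans zero_le_one (D.one_le_H x)
  have hpow : ∀ (n : ℕ) (y : X), y ∉ Z → g ^ n • y ∉ Z := fun n y hy h => hy ((hinv _ _).1 h)
  have hstep : ∀ (j : ι) (n : ℕ) (y : X),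
      |D.h (E.ℓ j) (g ^ (n + 1) • y) - E.χ j g * D.h (E.ℓ j) (g ^ n • y)| ≤
        C * √(D.H (g ^ n • y)) := by
    intro j n y
    rw [pow_succ', mul_smul]
    refine (hCe j _).trans (mul_le_mul_of_nonneg_right ?_ (Real.sqrt_nonneg _))
    have := hCj j
    have := abs_nonneg (Cb j)
    linarith
  have hM : ∀ y, y ∉ Z → ∀ n : ℕ, D.H (g ^ n • y) ≤ K * mu ^ n * D.H y := by
    intro y hy n
    have := hK (fun n => D.H (g ^ n • y)) (fun j n => D.h (E.ℓ j) (g ^ n • y))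
      (fun n => D.one_le_H _) (fun j n => hstep j n y) (by
        intro j
        refine (hCb j _).trans (mul_le_mul_of_nonneg_right ?_ (hH0 _))
        have h3 := hCj j
        have h4 := le_abs_self (Cb j)
        have h5 := hCe0 j
        linarith) (fun n => hAB _ (hpow n y hy)) n
    simpa using this
  have hL : ∀ y, ∃ L : ℝ, y ∉ Z →
      Tendsto (fun n : ℕ => D.h (E.ℓ i) (g ^ n • y) / lam ^ n) atTop (𝓝 L) ∧
        |L - D.h (E.ℓ i) y| ≤ C' * √(D.H y) := by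
    intro y
    by_cases hy : y ∈ Z
    · exact ⟨0, fun h => absurd hy h⟩
    · obtain ⟨L, hL1, hL2⟩ := hC' (fun n => D.H (g ^ n • y)) (fun n => D.h (E.ℓ i) (g ^ n • y))
        (fun n => D.one_le_H _) (fun n => by
          have := hstep i n y
          rwa [← hlam] at this) (fun n => by
          have := hM y hy n
          simpa using this)
      refine ⟨L, fun _ => ⟨hL1, ?_⟩⟩
      simpa using hL2
  choose c hc using hL
  refine ⟨c, ⟨C', fun y hy => (hc y hy).2⟩, fun k y hy => ?_⟩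
  have hky : k • y ∉ Z := fun h => hy ((hinv _ _).1 h)
  obtain ⟨Ck, hCk0, hCk⟩ := eig E i k
  have t1 := (hc (k • y) hky).1
  have t2 := ((hc y hy).1).const_mul (E.χ i k)
  have hsm : √mu < lam := by
    rw [Real.sqrt_lt' hlam0]
    exact hmu2
  have t3 : Tendsto (fun n : ℕ => Ck * √(K * D.H y) * (√mu / lam) ^ n) atTop (𝓝 0) := by
    have h3 : Tendsto (fun n : ℕ => (√mu / lam) ^ n) atTop (𝓝 0) :=
      tendsto_pow_atTop_nhds_zero_of_lt_one (div_nonneg (Real.sqrt_nonneg _) hlam0.le)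
        ((div_lt_one hlam0).2 hsm)
    have := h3.const_mul (Ck * √(K * D.H y))
    rwa [mul_zero] at this
  have t4 : Tendsto (fun n : ℕ => D.h (E.ℓ i) (g ^ n • k • y) / lam ^ n -
      E.χ i k * (D.h (E.ℓ i) (g ^ n • y) / lam ^ n)) atTop (𝓝 0) := by
    refine squeeze_zero_norm (fun n => ?_) t3
    have hln : 0 < lam ^ n := pow_pos hlam0 n
    have e1 : g ^ n • k • y = k • g ^ n • y := by
      rw [smul_smul, smul_smul, mul_comm]
    have e2 : D.h (E.ℓ i) (g ^ n • k • y) / lam ^ n - E.χ i k * (D.h (E.ℓ i) (g ^ n • y) / lam ^ n) =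
        (D.h (E.ℓ i) (k • g ^ n • y) - E.χ i k * D.h (E.ℓ i) (g ^ n • y)) / lam ^ n := by
      rw [e1]; ring
    rw [e2, Real.norm_eq_abs, abs_div, abs_of_pos hln, div_le_iff₀ hln]
    refine (hCk _).trans ?_
    have e3 : mu ^ n = (√mu ^ n) ^ 2 := by
      rw [← pow_mul, mul_comm n 2, pow_mul, Real.sq_sqrt hmu0.le]
    have h4 : √(D.H (g ^ n • y)) ≤ √(K * D.H y) * √mu ^ n := by
      have h5 : D.H (g ^ n • y) ≤ (K * D.H y) * (√mu ^ n) ^ 2 := by
        rw [← e3]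
        have := hM y hy n
        linarith
      calc √(D.H (g ^ n • y)) ≤ √((K * D.H y) * (√mu ^ n) ^ 2) := Real.sqrt_le_sqrt h5
        _ = √(K * D.H y) * √mu ^ n := by
          rw [Real.sqrt_mul (mul_nonneg hK0.le (hH0 y)),
            Real.sqrt_sq (pow_nonneg (Real.sqrt_nonneg _) n)]
    have e4 : Ck * √(K * D.H y) * (√mu / lam) ^ n * lam ^ n = Ck * (√(K * D.H y) * √mu ^ n) := by
      rw [div_pow]
      field_simp
    rw [e4]
    exact mul_le_mul_of_nonneg_left h4 hCk0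
  have t5 := t4.add t2
  rw [zero_add] at t5
  have t6 : Tendsto (fun n : ℕ => D.h (E.ℓ i) (g ^ n • k • y) / lam ^ n) atTop
      (𝓝 (E.χ i k * c y)) := by
    refine t5.congr fun n => ?_
    ring
  exact tendsto_nhds_unique t1 t6

end Pool.Agent.N704.KS
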