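import Pool.Agent.N704.PV.CoreC
import Pool.Agent.N804.PV.Stm
import Pool.Agent.N804.Glue

set_option autoImplicit false

/-!
# Project PV: the mean square of the sum over the zeros

Project PV (helper804), part PV3 (helper704).
-/

namespace Pool.Agent.N704.PV3

open Filter Topology Set MeasureTheory
open H370 (Zf mult)
open Pool.Agent.N804 (SC CT ST XX low_zero mem_ZT ZZ)
open Pool.Agent.N804.PV

lemma re_half (hRH : RiemannHypothesis) {s : ℂ} (hs : s ∈ ZZ) : s.re = 1 / 2 := by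
  refine hRH s hs.1 ?_ ?_
  · rintro ⟨n, rfl⟩
    have := hs.2.1
    simp at this
    have h0 : (0 : ℝ) ≤ n := Nat.cast_nonneg n
    linarith
  · rintro rfl
    have := hs.2.2
    simp at this

lemma hT_eq {T ε y : ℝ} {s : ℂ} (hs : s.re = 1 / 2) :
    (hT T ε y (s - 1 / 2)).re =
      FF (bb (fun γ => aT T ⟨1 / 2, γ⟩) ε s.im) s.im y := by
  have es : s = ⟨1 / 2, s.im⟩ := Complex.ext hs rfl
  have ew : s - 1 / 2 = (s.im : ℂ) * Complex.I := by
    apply Complex.ext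
    · simp [hs]
    · simp
  rw [FF_eq]
  unfold hT bb
  have e1 : (1 / 2 + (s - 1 / 2) : ℂ) = ⟨1 / 2, s.im⟩ := by rw [← es]; ring
  have e2 : ((y : ℂ) * (s - 1 / 2) + (ε : ℂ) ^ 2 * (s - 1 / 2) ^ 2 / 2) =
      ((-(ε ^ 2 * s.im ^ 2 / 2) : ℝ) : ℂ) + ((y * s.im : ℝ) : ℂ) * Complex.I := by
    rw [ew, mul_pow, Complex.I_sq]
    push_cast
    ring
  rw [e2, Complex.exp_add, e1, Complex.ofReal_exp, mul_assoc]

theorem main (h3a : S_PV3a) (h3b : S_PV3b) : S_PV3 := by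
  intro hRH w Hw η hη
  obtain ⟨h0, hh0, hlow⟩ := low_zero
  obtain ⟨C, hC, hPC⟩ := h3a h0 hh0
  obtain ⟨C1, hC1, hPN⟩ := h3b
  obtain ⟨D, hD, hcore⟩ := core (h0 := h0) (C := C) Hw hC1.le
  have hlim : Tendsto (fun T : ℝ => D * T ^ (-(1 / 2) : ℝ)) atTop (𝓝 (D * 0)) :=
    (tendsto_rpow_neg_atTop (by norm_num : (0 : ℝ) < 1 / 2)).const_mul D
  rw [mul_zero] at hlim
  obtain ⟨T1, hT1⟩ := eventually_atTop.1 (hlim.eventually (gt_mem_nhds hη))
  obtain ⟨T2, hT2⟩ := eventually_atTop.1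
    (Real.tendsto_log_atTop.eventually_ge_atTop (2 * Real.pi))
  refine ⟨max 2 (max T1 T2), fun T hT ε hε hε3 N hN => ?_⟩
  have hT2' : 2 ≤ T := (le_max_left _ _).trans hT
  have hTT1 : T1 ≤ T := ((le_max_left _ _).trans (le_max_right _ _)).trans hT
  have hTT2 : T2 ≤ T := ((le_max_right _ _).trans (le_max_right _ _)).trans hT
  have hL := hT2 T hTT2
  set L := Real.log T with hLd
  have hpi := Real.pi_gt_three
  have hL0 : 0 < L := by linarith
  have hT0 : 0 < T := by linarith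
  obtain ⟨p1, p2, p3⟩ := hPC T hT2'
  have Hc : Coef h0 C T (fun γ => aT T ⟨1 / 2, γ⟩) := by
    refine ⟨hh0, hC, fun γ hγ => ?_, fun γ hγ => ?_, p2, p3⟩
    · exact (p1 (1 / 2) γ (by rw [abs_of_pos] <;> norm_num) (by linarith)).1
    · have := (p1 (1 / 2) γ (by rw [abs_of_pos] <;> norm_num) (by linarith)).2
      rwa [abs_of_pos (by linarith : 0 < γ)] at this
  have hmem : ∀ s ∈ Zf riemannZeta 0 N, s ∈ ZZ ∧ 0 < s.im ∧ s.im ≤ N := fun s hs => mem_ZT.1 hs
  have hmain := hcore T L ε (fun γ => aT T ⟨1 / 2, γ⟩) hL Hc (by linarith) hε hε3 ℂ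
    (Zf riemannZeta 0 N) (fun s => s.im) (fun s => (mult riemannZeta s : ℝ))
    (fun s hs => ⟨(hlow s (hmem s hs).1 (hmem s hs).2.1).le, Nat.cast_nonneg _⟩)
    (hPN N).1 (hPN N).2
  have eZ : ∀ y : ℝ, ZN T ε N y = 2 * ∑ s ∈ Zf riemannZeta 0 N, (mult riemannZeta s : ℝ) *
      FF (bb (fun γ => aT T ⟨1 / 2, γ⟩) ε s.im) s.im y := by
    intro y
    unfold ZN
    congr 1
    refine Finset.sum_congr rfl fun s hs => ?_
    rw [hT_eq (re_half hRH (hmem s hs).1)]
  have eA : AT T (sc w T) = ∑ s ∈ Zf riemannZeta 0 N, ∑ s' ∈ Zf riemannZeta 0 N,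
      (mult riemannZeta s : ℝ) * (mult riemannZeta s' : ℝ) *
      (if s.im ≤ T ^ 2 ∧ s'.im ≤ T ^ 2 then 2 / (T * L) * (ph (max s.im s'.im / T) *
        CT w ((s.im - s'.im) * L / (2 * Real.pi))) else 0) := by
    have eF : Zf riemannZeta 0 (T ^ 2) =
        (Zf riemannZeta 0 N).filter (fun s => s.im ≤ T ^ 2) := by
      ext s
      rw [Finset.mem_filter, mem_ZT, mem_ZT]
      constructor
      · rintro ⟨a1, a2, a3⟩
        exact ⟨⟨a1, a2, a3.trans hN⟩, a3⟩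
      · rintro ⟨⟨a1, a2, a3⟩, a4⟩
        exact ⟨a1, a2, a4⟩
    have eX : Real.pi * XX T = T * L / 2 := by
      unfold Pool.Agent.N804.XX
      rw [← hLd]
      have := Real.pi_ne_zero
      field_simp
    unfold AT
    rw [eX, eF, Finset.sum_filter, Finset.sum_div]
    refine Finset.sum_congr rfl fun s _ => ?_
    by_cases h1 : s.im ≤ T ^ 2
    · rw [if_pos h1, Finset.sum_filter, Finset.sum_div]
      refine Finset.sum_congr rfl fun s' _ => ?_
      by_cases h2 : s'.im ≤ T ^ 2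
      · rw [if_pos h2, if_pos ⟨h1, h2⟩]
        unfold sc
        rw [← hLd]
        field_simp
      · rw [if_neg h2, if_neg (fun h => h2 h.2), zero_div, mul_zero]
    · rw [if_neg h1, zero_div]
      symm
      refine Finset.sum_eq_zero fun s' _ => ?_
      rw [if_neg (fun h => h1 h.1), mul_zero]
  simp_rw [eZ]
  rw [eA]
  exact hmain.trans (hT1 T hTT1).le

end Pool.Agent.N704.PV3
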