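import Mathlib
set_option autoImplicit false

/-! Master equations for a variance profile: positivity, uniqueness, kernel of the linearisation. -/

namespace N704VP
open Finset

variable {ι : Type*} [Fintype ι]

/-- `(Vᵀ q)_i` -/
def ph (V : ι → ι → ℝ) (q : ι → ℝ) (i : ι) : ℝ := ∑ k, V k i * q k
/-- `(V q̃)_i` -/
def pt (V : ι → ι → ℝ) (r : ι → ℝ) (i : ι) : ℝ := ∑ k, V i k * r k
/-- denominator -/
def Dn (V : ι → ι → ℝ) (s : ℝ) (q r : ι → ℝ) (i : ι) : ℝ := s ^ 2 + pt V r i * ph V q i

structure Sol (V : ι → ι → ℝ) (s : ℝ) (q r : ι → ℝ) : Prop where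
  q0 : ∀ i, 0 ≤ q i
  r0 : ∀ i, 0 ≤ r i
  e1 : ∀ i, q i = ph V q i / Dn V s q r i
  e2 : ∀ i, r i = pt V r i / Dn V s q r i
  sm : ∑ i, q i = ∑ i, r i

theorem ph_nonneg {V : ι → ι → ℝ} (hV : ∀ i j, 0 ≤ V i j) {q : ι → ℝ} (hq : ∀ i, 0 ≤ q i) (i : ι) :
    0 ≤ ph V q i := Finset.sum_nonneg fun k _ => mul_nonneg (hV k i) (hq k)

theorem pt_nonneg {V : ι → ι → ℝ} (hV : ∀ i j, 0 ≤ V i j) {q : ι → ℝ} (hq : ∀ i, 0 ≤ q i) (i : ι) :
    0 ≤ pt V q i := Finset.sum_nonneg fun k _ => mul_nonneg (hV i k) (hq k)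

theorem Dn_pos {V : ι → ι → ℝ} (hV : ∀ i j, 0 ≤ V i j) {s : ℝ} (hs : 0 < s) {q r : ι → ℝ}
    (hq : ∀ i, 0 ≤ q i) (hr : ∀ i, 0 ≤ r i) (i : ι) : 0 < Dn V s q r i := by
  have := mul_nonneg (pt_nonneg hV hr i) (ph_nonneg hV hq i)
  have h2 : 0 < s ^ 2 := by positivity
  unfold Dn
  linarith

/-- strong connectivity -/
def SC (V : ι → ι → ℝ) : Prop := ∀ i j, Relation.ReflTransGen (fun a b => 0 < V a b) i j

/-- A forward propagation principle. -/
theorem prop_fwd {V : ι → ι → ℝ} (hc : SC V) {T : ι → Prop} (h : ∀ i j, 0 < V i j → T i → T j)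
    {i : ι} (hi : T i) (j : ι) : T j := by
  induction hc i j with
  | refl => exact hi
  | tail _ hab ih => exact h _ _ hab ih

/-- A backward propagation principle. -/
theorem prop_bwd {V : ι → ι → ℝ} (hc : SC V) {T : ι → Prop} (h : ∀ i j, 0 < V i j → T j → T i)
    {j : ι} (hj : T j) (i : ι) : T i := by
  induction hc i j using Relation.ReflTransGen.head_induction_on with
  | refl => exact hj
  | head hab _ ih => exact h _ _ hab ih

theorem ph_pos_of {V : ι → ι → ℝ} (hV : ∀ i j, 0 ≤ V i j) {q : ι → ℝ} (hq : ∀ i, 0 ≤ q i)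
    {i j : ι} (hij : 0 < V i j) (hi : 0 < q i) : 0 < ph V q j :=
  Finset.sum_pos' (fun k _ => mul_nonneg (hV k j) (hq k)) ⟨i, Finset.mem_univ i, mul_pos hij hi⟩

theorem pt_pos_of {V : ι → ι → ℝ} (hV : ∀ i j, 0 ≤ V i j) {q : ι → ℝ} (hq : ∀ i, 0 ≤ q i)
    {i j : ι} (hij : 0 < V i j) (hj : 0 < q j) : 0 < pt V q i :=
  Finset.sum_pos' (fun k _ => mul_nonneg (hV i k) (hq k)) ⟨j, Finset.mem_univ j, mul_pos hij hj⟩

/-- nonzero solutions are entrywise positive -/
theorem Sol.pos {V : ι → ι → ℝ} (hV : ∀ i j, 0 ≤ V i j) (hc : SC V) {s : ℝ} (hs : 0 < s)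
    {q r : ι → ℝ} (h : Sol V s q r) (hne : ¬ (q = 0 ∧ r = 0)) :
    (∀ i, 0 < q i) ∧ (∀ i, 0 < r i) ∧ (∀ i, 0 < ph V q i) ∧ (∀ i, 0 < pt V r i) := by
  have hD := Dn_pos hV hs h.q0 h.r0
  have hsum : 0 < ∑ i, q i := by
    rcases (Finset.sum_nonneg fun i (_ : i ∈ Finset.univ) => h.q0 i).lt_or_eq with h1 | h1
    · exact h1
    · exfalso
      apply hne
      constructor
      · funext i
        exact (Finset.sum_eq_zero_iff_of_nonneg fun i _ => h.q0 i).1 h1.symm i (Finset.mem_univ i)
      · funext i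
        rw [h.sm] at h1
        exact (Finset.sum_eq_zero_iff_of_nonneg fun i _ => h.r0 i).1 h1.symm i (Finset.mem_univ i)
  have hsum' : 0 < ∑ i, r i := by rw [← h.sm]; exact hsum
  obtain ⟨i, -, hi⟩ := Finset.exists_lt_of_sum_lt (s := Finset.univ) (f := fun _ => (0:ℝ)) (g := q)
    (by simpa using hsum)
  obtain ⟨j, -, hj⟩ := Finset.exists_lt_of_sum_lt (s := Finset.univ) (f := fun _ => (0:ℝ)) (g := r)
    (by simpa using hsum')
  have hq : ∀ i, 0 < q i := fun k => prop_fwd hc (T := fun i => 0 < q i) (fun a b hab ha => by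
    rw [h.e1 b]; exact div_pos (ph_pos_of hV h.q0 hab ha) (hD b)) hi k
  have hr : ∀ i, 0 < r i := fun k => prop_bwd hc (T := fun i => 0 < r i) (fun a b hab hb => by
    rw [h.e2 a]; exact div_pos (pt_pos_of hV h.r0 hab hb) (hD a)) hj k
  refine ⟨hq, hr, fun i => ?_, fun i => ?_⟩
  · have h1 := hq i
    rw [h.e1 i] at h1
    exact (div_pos_iff_of_pos_right (hD i)).1 h1
  · have h1 := hr i
    rw [h.e2 i] at h1
    exact (div_pos_iff_of_pos_right (hD i)).1 h1

theorem wsum_le {f g w : ι → ℝ} (hw : ∀ k, 0 ≤ w k) (h : ∀ k, f k ≤ g k) :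
    ∑ k, w k * f k ≤ ∑ k, w k * g k :=
  Finset.sum_le_sum fun k _ => mul_le_mul_of_nonneg_left (h k) (hw k)

theorem wsum_eq {f g w : ι → ℝ} (hw : ∀ k, 0 ≤ w k) (h : ∀ k, f k ≤ g k)
    (he : ∑ k, w k * f k = ∑ k, w k * g k) (k : ι) (hk : 0 < w k) : f k = g k := by
  have := (Finset.sum_eq_sum_iff_of_le (s := Finset.univ)
    (f := fun k => w k * f k) (g := fun k => w k * g k)
    (fun k _ => mul_le_mul_of_nonneg_left (h k) (hw k))).1 he k (Finset.mem_univ k)
  exact mul_left_cancel₀ hk.ne' this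

/-- uniqueness of positive solutions -/
theorem Sol.unique {V : ι → ι → ℝ} (hV : ∀ i j, 0 ≤ V i j) (hc : SC V) {s : ℝ} (hs : 0 < s)
    {q r q' r' : ι → ℝ} (h : Sol V s q r) (h' : Sol V s q' r')
    (hne : ¬ (q = 0 ∧ r = 0)) (hne' : ¬ (q' = 0 ∧ r' = 0)) [Nonempty ι] : q' = q ∧ r' = r := by
  obtain ⟨hq, hr, hp, ht⟩ := h.pos hV hc hs hne
  obtain ⟨hq', hr', hp', ht'⟩ := h'.pos hV hc hs hne'
  have hD := Dn_pos hV hs h.q0 h.r0
  have hD' := Dn_pos hV hs h'.q0 h'.r0
  obtain ⟨i1, hi1⟩ := Finite.exists_min (fun i => q' i / q i)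
  obtain ⟨i2, hi2⟩ := Finite.exists_min (fun i => r i / r' i)
  set c : ℝ := min (q' i1 / q i1) (r i2 / r' i2) with hcdef
  have hc0 : 0 < c := lt_min (div_pos (hq' _) (hq _)) (div_pos (hr _) (hr' _))
  have hA : ∀ i, c * q i ≤ q' i := fun i => by
    have : c ≤ q' i / q i := (min_le_left _ _).trans (hi1 i)
    exact (le_div_iff₀ (hq i)).1 this
  have hB : ∀ i, c * r' i ≤ r i := fun i => by
    have : c ≤ r i / r' i := (min_le_right _ _).trans (hi2 i)
    exact (le_div_iff₀ (hr' i)).1 this
  -- consequences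
  have hPle : ∀ i, c * ph V q i ≤ ph V q' i := fun i => by
    unfold ph
    rw [Finset.mul_sum]
    calc ∑ k, c * (V k i * q k) = ∑ k, V k i * (c * q k) :=
          Finset.sum_congr rfl fun k _ => by ring
      _ ≤ _ := wsum_le (fun k => hV k i) hA
  have hTle : ∀ i, c * pt V r' i ≤ pt V r i := fun i => by
    unfold pt
    rw [Finset.mul_sum]
    calc ∑ k, c * (V i k * r' k) = ∑ k, V i k * (c * r' k) :=
          Finset.sum_congr rfl fun k _ => by ring
      _ ≤ _ := wsum_le (fun k => hV i k) hB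
  -- T i : equality of both
  have key1 : ∀ i, q' i = c * q i → ph V q' i = c * ph V q i ∧ pt V r i = c * pt V r' i := by
    intro i hi
    have e1 := h.e1 i
    have e1' := h'.e1 i
    have hd := hD i
    have hd' := hD' i
    rw [e1, e1', div_eq_iff hd'.ne'] at hi
    have hx : ph V q' i * Dn V s q r i = c * ph V q i * Dn V s q' r' i := by
      rw [hi]; field_simp
    unfold Dn at hx
    have h1 := hPle i
    have h2 := hTle i
    have p1 := hp i
    have p2 := hp' i
    have t1 := ht i
    have t2 := ht' i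
    -- P' (s²+ T P) = c P (s² + T' P')
    have hx2 : s ^ 2 * (ph V q' i - c * ph V q i) + ph V q' i * ph V q i * (pt V r i - c * pt V r' i)
        = 0 := by linarith [hx]
    have hs2 : 0 < s ^ 2 := by positivity
    have a1 : 0 ≤ s ^ 2 * (ph V q' i - c * ph V q i) := mul_nonneg hs2.le (by linarith)
    have a2 : 0 ≤ ph V q' i * ph V q i * (pt V r i - c * pt V r' i) :=
      mul_nonneg (mul_pos p2 p1).le (by linarith)
    have b1 : s ^ 2 * (ph V q' i - c * ph V q i) = 0 := by linarith
    have b2 : ph V q' i * ph V q i * (pt V r i - c * pt V r' i) = 0 := by linarith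
    constructor
    · rcases mul_eq_zero.1 b1 with h3 | h3
      · exact absurd h3 hs2.ne'
      · linarith
    · rcases mul_eq_zero.1 b2 with h3 | h3
      · exact absurd h3 (mul_pos p2 p1).ne'
      · linarith
  have key2 : ∀ i, r i = c * r' i → ph V q' i = c * ph V q i ∧ pt V r i = c * pt V r' i := by
    intro i hi
    have e1 := h.e2 i
    have e1' := h'.e2 i
    have hd := hD i
    have hd' := hD' i
    rw [e1, e1', div_eq_iff hd.ne'] at hi
    have hx : pt V r i * Dn V s q' r' i = c * pt V r' i * Dn V s q r i := by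
      rw [hi]; field_simp
    unfold Dn at hx
    have h1 := hPle i
    have h2 := hTle i
    have p1 := hp i
    have p2 := hp' i
    have t1 := ht i
    have t2 := ht' i
    have hx2 : s ^ 2 * (pt V r i - c * pt V r' i) + pt V r' i * pt V r i * (ph V q' i - c * ph V q i)
        = 0 := by linarith [hx]
    have hs2 : 0 < s ^ 2 := by positivity
    have a1 : 0 ≤ s ^ 2 * (pt V r i - c * pt V r' i) := mul_nonneg hs2.le (by linarith)
    have a2 : 0 ≤ pt V r' i * pt V r i * (ph V q' i - c * ph V q i) :=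
      mul_nonneg (mul_pos t2 t1).le (by linarith)
    have b1 : s ^ 2 * (pt V r i - c * pt V r' i) = 0 := by linarith
    have b2 : pt V r' i * pt V r i * (ph V q' i - c * ph V q i) = 0 := by linarith
    constructor
    · rcases mul_eq_zero.1 b2 with h3 | h3
      · exact absurd h3 (mul_pos t2 t1).ne'
      · linarith
    · rcases mul_eq_zero.1 b1 with h3 | h3
      · exact absurd h3 hs2.ne'
      · linarith
  -- both equalities give equalities for q and r
  have key3 : ∀ i, (ph V q' i = c * ph V q i ∧ pt V r i = c * pt V r' i) →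
      q' i = c * q i ∧ r i = c * r' i := by
    intro i ⟨h1, h2⟩
    have hDD : Dn V s q r i = Dn V s q' r' i := by
      unfold Dn; rw [h1, h2]; ring
    constructor
    · rw [h.e1 i, h'.e1 i, h1, hDD]; ring
    · rw [h.e2 i, h'.e2 i, h2, hDD]; ring
  set T : ι → Prop := fun i => ph V q' i = c * ph V q i ∧ pt V r i = c * pt V r' i with hT
  obtain ⟨i0, hi0⟩ : ∃ i, T i := by
    rcases min_choice (q' i1 / q i1) (r i2 / r' i2) with h1 | h1
    · refine ⟨i1, key1 i1 ?_⟩
      have : c = q' i1 / q i1 := h1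
      rw [this, div_mul_cancel₀ _ (hq i1).ne']
    · refine ⟨i2, key2 i2 ?_⟩
      have : c = r i2 / r' i2 := h1
      rw [this, div_mul_cancel₀ _ (hr' i2).ne']
  have hstep : ∀ a b, 0 < V a b → T b → T a := by
    intro a b hab hb
    apply key1
    have he : ∑ k, V k b * (c * q k) = ∑ k, V k b * q' k := by
      have := hb.1
      unfold ph at this
      rw [this, Finset.mul_sum]
      exact Finset.sum_congr rfl fun k _ => by ring
    exact (wsum_eq (fun k => hV k b) hA he a hab).symm
  have hall : ∀ i, T i := prop_bwd hc hstep hi0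
  have hfin : ∀ i, q' i = c * q i ∧ r i = c * r' i := fun i => key3 i (hall i)
  have s1 : ∑ i, q' i = c * ∑ i, q i := by
    rw [Finset.mul_sum]; exact Finset.sum_congr rfl fun i _ => (hfin i).1
  have s2 : ∑ i, r i = c * ∑ i, r' i := by
    rw [Finset.mul_sum]; exact Finset.sum_congr rfl fun i _ => (hfin i).2
  have hS : 0 < ∑ i, q i := Finset.sum_pos (fun i _ => hq i) Finset.univ_nonempty
  have hS' : 0 < ∑ i, q' i := Finset.sum_pos (fun i _ => hq' i) Finset.univ_nonempty
  have hc1 : c = 1 := by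
    rw [← h.sm, ← h'.sm, s1] at s2
    have h5 : ∑ i, q i * (1 - c ^ 2) = 0 := by
      rw [← Finset.sum_mul]; linarith
    rw [← Finset.sum_mul] at h5
    rcases mul_eq_zero.1 h5 with h6 | h6
    · exact absurd h6 hS.ne'
    · nlinarith
  constructor
  · funext i; rw [(hfin i).1, hc1, one_mul]
  · funext i; have := (hfin i).2; rw [hc1, one_mul] at this; exact this.symm

/-- `α_i = s² / D_i` -/
noncomputable def al (V : ι → ι → ℝ) (s : ℝ) (q r : ι → ℝ) (i : ι) : ℝ := s ^ 2 / Dn V s q r i

theorem ph_comm (V : ι → ι → ℝ) (q r : ι → ℝ) : ∑ i, ph V q i * r i = ∑ i, q i * pt V r i := by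
  unfold ph pt
  simp_rw [Finset.sum_mul, Finset.mul_sum]
  rw [Finset.sum_comm]
  exact Finset.sum_congr rfl fun i _ => Finset.sum_congr rfl fun j _ => by ring

/-- kernel of the linearisation -/
theorem ker_triv {V : ι → ι → ℝ} (hV : ∀ i j, 0 ≤ V i j) (hc : SC V) {s : ℝ} (hs : 0 < s)
    {q r : ι → ℝ} (h : Sol V s q r) (hne : ¬ (q = 0 ∧ r = 0)) [Nonempty ι] {x y : ι → ℝ}
    (h1 : ∀ i, x i * Dn V s q r i + q i * (pt V y i * ph V q i + pt V r i * ph V x i) - ph V x i = 0)
    (h2 : ∀ i, y i * Dn V s q r i + r i * (pt V y i * ph V q i + pt V r i * ph V x i) - pt V y i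
      + (∑ j, x j - ∑ j, y j) = 0) : x = 0 ∧ y = 0 := by
  obtain ⟨hq, hr, hp, ht⟩ := h.pos hV hc hs hne
  have hD := Dn_pos hV hs h.q0 h.r0
  have hqD : ∀ i, ph V q i = q i * Dn V s q r i := fun i => by
    have := h.e1 i; rw [eq_div_iff (hD i).ne'] at this; exact this.symm
  have hrD : ∀ i, pt V r i = r i * Dn V s q r i := fun i => by
    have := h.e2 i; rw [eq_div_iff (hD i).ne'] at this; exact this.symm
  have hS : 0 < ∑ i, q i := Finset.sum_pos (fun i _ => hq i) Finset.univ_nonempty
  have hS' : 0 < ∑ i, r i := Finset.sum_pos (fun i _ => hr i) Finset.univ_nonempty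
  -- first: δ = 0
  have hδ : (∑ j, x j - ∑ j, y j) = 0 := by
    set δ := (∑ j, x j - ∑ j, y j) with hδ
    -- Σ q_i * (h2 i)
    have e : ∀ i, q i * δ = -(ph V q i * y i) + q i * pt V y i
        - (q i * r i) * (pt V y i * ph V q i + pt V r i * ph V x i) := fun i => by
      have h3 := h2 i
      rw [hqD i] at *
      linear_combination (q i) * h3
    have e' : ∀ i, (q i * r i) * (pt V y i * ph V q i + pt V r i * ph V x i) =
        r i * (ph V x i - x i * Dn V s q r i) := fun i => by
      have h3 := h1 i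
      linear_combination (r i) * h3
    have e'' : ∀ i, q i * δ = -(ph V q i * y i) + q i * pt V y i - (ph V x i * r i - x i * pt V r i)
        := fun i => by
      rw [e i, e' i, hrD i]; ring
    have h4 : ∑ i, q i * δ = 0 := by
      calc ∑ i, q i * δ = ∑ i, (-(ph V q i * y i) + q i * pt V y i
            - (ph V x i * r i - x i * pt V r i)) := Finset.sum_congr rfl fun i _ => e'' i
        _ = 0 := by
          rw [Finset.sum_sub_distrib, Finset.sum_add_distrib, Finset.sum_neg_distrib,
            Finset.sum_sub_distrib, ph_comm, ph_comm]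
          ring
    rw [← Finset.sum_mul] at h4
    rcases mul_eq_zero.1 h4 with h5 | h5
    · exact absurd h5 hS.ne'
    · exact h5
  -- set u = x / q, w = - y / r
  set u : ι → ℝ := fun i => x i / q i with hu
  set w : ι → ℝ := fun i => - y i / r i with hw
  have hx : ∀ i, x i = q i * u i := fun i => by rw [hu]; field_simp [(hq i).ne']
  have hy : ∀ i, y i = - (r i * w i) := fun i => by
    rw [hw]
    have := (hr i).ne'
    field_simp
  obtain ⟨i1, hi1⟩ := Finite.exists_max u
  obtain ⟨i2, hi2⟩ := Finite.exists_max w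
  set M : ℝ := max (u i1) (w i2) with hM
  have huM : ∀ i, u i ≤ M := fun i => (hi1 i).trans (le_max_left _ _)
  have hwM : ∀ i, w i ≤ M := fun i => (hi2 i).trans (le_max_right _ _)
  -- ph V x i ≤ M * ph V q i ; -(pt V y i) ≤ M * pt V r i
  have hPx : ∀ i, ph V x i ≤ M * ph V q i := fun i => by
    unfold ph
    rw [Finset.mul_sum]
    refine Finset.sum_le_sum fun k _ => ?_
    rw [hx k]
    have := mul_le_mul_of_nonneg_left (huM k) (mul_nonneg (hV k i) (hq k).le)
    linarith
  have hTy : ∀ i, -pt V y i ≤ M * pt V r i := fun i => by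
    unfold pt
    rw [Finset.mul_sum, ← Finset.sum_neg_distrib]
    refine Finset.sum_le_sum fun k _ => ?_
    rw [hy k]
    have := mul_le_mul_of_nonneg_left (hwM k) (mul_nonneg (hV i k) (hr k).le)
    linarith
  set T : ι → Prop := fun i => ph V x i = M * ph V q i ∧ -pt V y i = M * pt V r i with hT
  have hs2 : 0 < s ^ 2 := by positivity
  have key1 : ∀ i, u i = M → T i := by
    intro i hi
    have h3 := h1 i
    rw [hx i, hi] at h3
    have hq' := hq i
    have hp' := hp i
    have ht' := ht i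
    have hqd := hqD i
    have hDi : Dn V s q r i = s ^ 2 + pt V r i * ph V q i := rfl
    have a1 := hPx i
    have a2 := hTy i
    have hDp := hD i
    -- q M D + q (Ty P + T Px) - Px = 0, P = q D, so  D * (...)
    -- multiply by D : P M D + P (Ty P + T Px) - D Px = 0
    have h4 : s ^ 2 * (M * ph V q i - ph V x i) + ph V q i ^ 2 * (M * pt V r i + pt V y i) = 0 := by
      have h5 : Dn V s q r i * (q i * M * Dn V s q r i + q i * (pt V y i * ph V q i + pt V r i * ph V x i)
        - ph V x i) = 0 := by rw [h3]; ring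
      have h6 : (q i * Dn V s q r i) * M * Dn V s q r i + (q i * Dn V s q r i) *
        (pt V y i * ph V q i + pt V r i * ph V x i)
        - Dn V s q r i * ph V x i = 0 := by linarith [h5]
      rw [← hqd, hDi] at h6
      linarith [h6]
    have b1 : 0 ≤ s ^ 2 * (M * ph V q i - ph V x i) := mul_nonneg hs2.le (by linarith)
    have b2 : 0 ≤ ph V q i ^ 2 * (M * pt V r i + pt V y i) := mul_nonneg (by positivity) (by linarith)
    have c1 : s ^ 2 * (M * ph V q i - ph V x i) = 0 := by linarith
    have c2 : ph V q i ^ 2 * (M * pt V r i + pt V y i) = 0 := by linarith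
    constructor
    · rcases mul_eq_zero.1 c1 with h7 | h7
      · exact absurd h7 hs2.ne'
      · linarith
    · rcases mul_eq_zero.1 c2 with h7 | h7
      · exact absurd h7 (by positivity)
      · linarith
  have key2 : ∀ i, w i = M → T i := by
    intro i hi
    have h3 := h2 i
    rw [hδ, add_zero, hy i, hi] at h3
    have hr' := hr i
    have hp' := hp i
    have ht' := ht i
    have hrd := hrD i
    have hDi : Dn V s q r i = s ^ 2 + pt V r i * ph V q i := rfl
    have a1 := hPx i
    have a2 := hTy i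
    have hDp := hD i
    have h4 : s ^ 2 * (M * pt V r i + pt V y i) + pt V r i ^ 2 * (M * ph V q i - ph V x i) = 0 := by
      have h5 : Dn V s q r i * (-(r i * M) * Dn V s q r i
        + r i * (pt V y i * ph V q i + pt V r i * ph V x i)
        - pt V y i) = 0 := by rw [h3]; ring
      have h6 : -((r i * Dn V s q r i) * M) * Dn V s q r i + (r i * Dn V s q r i) *
        (pt V y i * ph V q i + pt V r i * ph V x i)
        - Dn V s q r i * pt V y i = 0 := by linarith [h5]
      rw [← hrd, hDi] at h6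
      linarith [h6]
    have b1 : 0 ≤ s ^ 2 * (M * pt V r i + pt V y i) := mul_nonneg hs2.le (by linarith)
    have b2 : 0 ≤ pt V r i ^ 2 * (M * ph V q i - ph V x i) := mul_nonneg (by positivity) (by linarith)
    have c1 : s ^ 2 * (M * pt V r i + pt V y i) = 0 := by linarith
    have c2 : pt V r i ^ 2 * (M * ph V q i - ph V x i) = 0 := by linarith
    constructor
    · rcases mul_eq_zero.1 c2 with h7 | h7
      · exact absurd h7 (by positivity)
      · linarith
    · rcases mul_eq_zero.1 c1 with h7 | h7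
      · exact absurd h7 hs2.ne'
      · linarith
  obtain ⟨i0, hi0⟩ : ∃ i, T i := by
    rcases max_choice (u i1) (w i2) with h3 | h3
    · exact ⟨i1, key1 i1 h3.symm⟩
    · exact ⟨i2, key2 i2 h3.symm⟩
  have hstep : ∀ a b, 0 < V a b → T b → T a := by
    intro a b hab hb
    apply key1
    have he : ∑ k, (V k b * q k) * u k = ∑ k, (V k b * q k) * M := by
      have := hb.1
      unfold ph at this
      rw [Finset.mul_sum] at this
      calc ∑ k, (V k b * q k) * u k = ∑ k, V k b * x k :=
            Finset.sum_congr rfl fun k _ => by rw [hx k]; ring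
        _ = _ := by rw [this]; exact Finset.sum_congr rfl fun k _ => by ring
    exact wsum_eq (fun k => mul_nonneg (hV k b) (hq k).le) huM he a (mul_pos hab (hq a))
  have hall : ∀ i, T i := prop_bwd hc hstep hi0
  -- T i gives x i = M q i and y i = - M r i
  have hxM : ∀ i, x i = M * q i := fun i => by
    obtain ⟨t1, t2⟩ := hall i
    have h3 := h1 i
    have t2' : pt V y i = -(M * pt V r i) := by linarith
    rw [t1, t2'] at h3
    have hqd := hqD i
    have hDp := hD i
    have h4 : (x i - M * q i) * Dn V s q r i = 0 := by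
      have : M * ph V q i = M * (q i * Dn V s q r i) := by rw [← hqd]
      linarith
    rcases mul_eq_zero.1 h4 with h5 | h5
    · linarith
    · exact absurd h5 hDp.ne'
  have hyM : ∀ i, y i = -(M * r i) := fun i => by
    obtain ⟨t1, t2⟩ := hall i
    have h3 := h2 i
    have t2' : pt V y i = -(M * pt V r i) := by linarith
    rw [hδ, t1, t2'] at h3
    have hrd := hrD i
    have hDp := hD i
    have h4 : (y i + M * r i) * Dn V s q r i = 0 := by
      have : M * pt V r i = M * (r i * Dn V s q r i) := by rw [← hrd]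
      linarith
    rcases mul_eq_zero.1 h4 with h5 | h5
    · linarith
    · exact absurd h5 hDp.ne'
  have hM0 : M = 0 := by
    have e1 : ∑ j, x j = M * ∑ j, q j := by
      rw [Finset.mul_sum]; exact Finset.sum_congr rfl fun i _ => hxM i
    have e2 : ∑ j, y j = -(M * ∑ j, r j) := by
      rw [Finset.mul_sum, ← Finset.sum_neg_distrib]; exact Finset.sum_congr rfl fun i _ => hyM i
    rw [e1, e2] at hδ
    have : M * (∑ j, q j + ∑ j, r j) = 0 := by linarith
    rcases mul_eq_zero.1 this with h5 | h5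
    · exact h5
    · linarith
  constructor
  · funext i; rw [hxM i, hM0]; simp
  · funext i; rw [hyM i, hM0]; simp

end N704VP
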