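import Mathlib
import Pool.Agent.N704.VP1
set_option autoImplicit false

/-! Analytic dependence of the solution of the master equations. -/

namespace N704VP
open Finset Topology Filter
open scoped ContDiff

variable {ι : Type*} [Fintype ι]

/-- the square system -/
def GG (V : ι → ι → ℝ) (p : ℝ × ((ι → ℝ) × (ι → ℝ))) : (ι → ℝ) × (ι → ℝ) :=
  (fun i => p.2.1 i * Dn V p.1 p.2.1 p.2.2 i - ph V p.2.1 i,
   fun i => p.2.2 i * Dn V p.1 p.2.1 p.2.2 i - pt V p.2.2 i + (∑ j, p.2.1 j - ∑ j, p.2.2 j))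

theorem GG_contDiff (V : ι → ι → ℝ) : ContDiff ℝ ω (GG V) := by
  unfold GG Dn ph pt
  fun_prop

theorem GG_sol {V : ι → ι → ℝ} {s : ℝ} {q r : ι → ℝ} (h : Sol V s q r)
    (hD : ∀ i, 0 < Dn V s q r i) : GG V (s, (q, r)) = 0 := by
  unfold GG
  refine Prod.ext ?_ ?_
  · funext i
    have := h.e1 i; rw [eq_div_iff (hD i).ne'] at this
    show q i * Dn V s q r i - ph V q i = 0
    linarith
  · funext i
    have := h.e2 i; rw [eq_div_iff (hD i).ne'] at this
    have := h.sm
    show r i * Dn V s q r i - pt V r i + (∑ j, q j - ∑ j, r j) = 0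
    linarith

theorem sol_of_GG {V : ι → ι → ℝ} (hV : ∀ i j, 0 ≤ V i j) {s : ℝ} (hs : 0 < s)
    {q r : ι → ℝ} [Nonempty ι]
    (hq : ∀ i, 0 < q i) (hr : ∀ i, 0 < r i) (h : GG V (s, (q, r)) = 0) : Sol V s q r := by
  have hD := Dn_pos hV hs (fun i => (hq i).le) (fun i => (hr i).le)
  have h1 : ∀ i, q i * Dn V s q r i - ph V q i = 0 := fun i =>
    congrFun (congrArg Prod.fst h) i
  have h2 : ∀ i, r i * Dn V s q r i - pt V r i + (∑ j, q j - ∑ j, r j) = 0 := fun i =>
    congrFun (congrArg Prod.snd h) i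
  set δ := (∑ j, q j - ∑ j, r j) with hδ
  have hS : 0 < ∑ i, q i := Finset.sum_pos (fun i _ => hq i) Finset.univ_nonempty
  have hδ0 : δ = 0 := by
    have e : ∀ i, q i * δ = -(ph V q i * r i) + q i * pt V r i := fun i => by
      linear_combination (q i) * h2 i - (r i) * h1 i
    have h4 : ∑ i, q i * δ = 0 := by
      calc ∑ i, q i * δ = ∑ i, (-(ph V q i * r i) + q i * pt V r i) :=
            Finset.sum_congr rfl fun i _ => e i
        _ = 0 := by
          rw [Finset.sum_add_distrib, Finset.sum_neg_distrib, ph_comm]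
          ring
    rw [← Finset.sum_mul] at h4
    rcases mul_eq_zero.1 h4 with h5 | h5
    · exact absurd h5 hS.ne'
    · exact h5
  refine ⟨fun i => (hq i).le, fun i => (hr i).le, fun i => ?_, fun i => ?_, ?_⟩
  · rw [eq_div_iff (hD i).ne']; linarith [h1 i]
  · rw [eq_div_iff (hD i).ne']; have := h2 i; rw [hδ0] at this; linarith
  · rw [hδ0] at hδ; linarith

theorem ph_add_smul (V : ι → ι → ℝ) (q x : ι → ℝ) (t : ℝ) (i : ι) :
    ph V (fun j => q j + t * x j) i = ph V q i + t * ph V x i := by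
  unfold ph
  rw [Finset.mul_sum, ← Finset.sum_add_distrib]
  exact Finset.sum_congr rfl fun k _ => by ring

theorem pt_add_smul (V : ι → ι → ℝ) (q x : ι → ℝ) (t : ℝ) (i : ι) :
    pt V (fun j => q j + t * x j) i = pt V q i + t * pt V x i := by
  unfold pt
  rw [Finset.mul_sum, ← Finset.sum_add_distrib]
  exact Finset.sum_congr rfl fun k _ => by ring

theorem sum_add_smul (q x : ι → ℝ) (t : ℝ) :
    ∑ j, (q j + t * x j) = ∑ j, q j + t * ∑ j, x j := by
  rw [Finset.mul_sum, ← Finset.sum_add_distrib]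

/-- The partial derivative of `GG` in the direction `(0,(x,y))`. -/
theorem GG_deriv (V : ι → ι → ℝ) (s : ℝ) (q r x y : ι → ℝ) :
    (fderiv ℝ (GG V) (s, (q, r)) ∘L .inr ℝ ℝ ((ι → ℝ) × (ι → ℝ))) (x, y) =
    (fun i => x i * Dn V s q r i + q i * (pt V y i * ph V q i + pt V r i * ph V x i) - ph V x i,
     fun i => y i * Dn V s q r i + r i * (pt V y i * ph V q i + pt V r i * ph V x i) - pt V y i
      + (∑ j, x j - ∑ j, y j)) := by
  have hdiff : DifferentiableAt ℝ (GG V) (s, (q, r)) :=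
    (GG_contDiff V).contDiffAt.differentiableAt (by simp)
  have hfd := hdiff.hasFDerivAt
  set c : ℝ → ℝ × ((ι → ℝ) × (ι → ℝ)) := fun t => (s, (fun j => q j + t * x j, fun j => r j + t * y j))
    with hc
  have hc0 : c 0 = (s, (q, r)) := by simp [hc]
  have hcd : HasDerivAt c (0, (x, y)) 0 := by
    refine HasDerivAt.prodMk (hasDerivAt_const _ _) (HasDerivAt.prodMk ?_ ?_)
    · rw [hasDerivAt_pi]
      intro i
      simpa using ((hasDerivAt_id (0:ℝ)).mul_const (x i)).const_add (q i)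
    · rw [hasDerivAt_pi]
      intro i
      simpa using ((hasDerivAt_id (0:ℝ)).mul_const (y i)).const_add (r i)
  rw [← hc0] at hfd
  have hcomp := hfd.comp_hasDerivAt (0:ℝ) hcd
  have hval : GG V ∘ c = fun t => (fun i => (q i + t * x i) *
      (s ^ 2 + (pt V r i + t * pt V y i) * (ph V q i + t * ph V x i)) - (ph V q i + t * ph V x i),
      fun i => (r i + t * y i) *
      (s ^ 2 + (pt V r i + t * pt V y i) * (ph V q i + t * ph V x i)) - (pt V r i + t * pt V y i)
      + ((∑ j, q j + t * ∑ j, x j) - (∑ j, r j + t * ∑ j, y j))) := by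
    funext t
    simp only [Function.comp, hc, GG, Dn, ph_add_smul, pt_add_smul, sum_add_smul]
  rw [hval] at hcomp
  have hdir : HasDerivAt (fun t : ℝ => ((fun i => (q i + t * x i) *
      (s ^ 2 + (pt V r i + t * pt V y i) * (ph V q i + t * ph V x i)) - (ph V q i + t * ph V x i),
      fun i => (r i + t * y i) *
      (s ^ 2 + (pt V r i + t * pt V y i) * (ph V q i + t * ph V x i)) - (pt V r i + t * pt V y i)
      + ((∑ j, q j + t * ∑ j, x j) - (∑ j, r j + t * ∑ j, y j))) : (ι → ℝ) × (ι → ℝ)))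
    (fun i => x i * Dn V s q r i + q i * (pt V y i * ph V q i + pt V r i * ph V x i) - ph V x i,
     fun i => y i * Dn V s q r i + r i * (pt V y i * ph V q i + pt V r i * ph V x i) - pt V y i
      + (∑ j, x j - ∑ j, y j)) 0 := by
    refine HasDerivAt.prodMk ?_ ?_
    · rw [hasDerivAt_pi]
      intro i
      have l1 : HasDerivAt (fun t : ℝ => q i + t * x i) (x i) 0 := by
        simpa using ((hasDerivAt_id (0:ℝ)).mul_const (x i)).const_add (q i)
      have l2 : HasDerivAt (fun t : ℝ => pt V r i + t * pt V y i) (pt V y i) 0 := by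
        simpa using ((hasDerivAt_id (0:ℝ)).mul_const (pt V y i)).const_add (pt V r i)
      have l3 : HasDerivAt (fun t : ℝ => ph V q i + t * ph V x i) (ph V x i) 0 := by
        simpa using ((hasDerivAt_id (0:ℝ)).mul_const (ph V x i)).const_add (ph V q i)
      have := (l1.fun_mul ((l2.fun_mul l3).const_add (s ^ 2))).fun_sub l3
      convert this using 1
      simp only [Dn]; ring
    · rw [hasDerivAt_pi]
      intro i
      have l1 : HasDerivAt (fun t : ℝ => r i + t * y i) (y i) 0 := by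
        simpa using ((hasDerivAt_id (0:ℝ)).mul_const (y i)).const_add (r i)
      have l2 : HasDerivAt (fun t : ℝ => pt V r i + t * pt V y i) (pt V y i) 0 := by
        simpa using ((hasDerivAt_id (0:ℝ)).mul_const (pt V y i)).const_add (pt V r i)
      have l3 : HasDerivAt (fun t : ℝ => ph V q i + t * ph V x i) (ph V x i) 0 := by
        simpa using ((hasDerivAt_id (0:ℝ)).mul_const (ph V x i)).const_add (ph V q i)
      have l4 : HasDerivAt (fun t : ℝ => ∑ j, q j + t * ∑ j, x j) (∑ j, x j) 0 := by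
        simpa using ((hasDerivAt_id (0:ℝ)).mul_const (∑ j, x j)).const_add (∑ j, q j)
      have l5 : HasDerivAt (fun t : ℝ => ∑ j, r j + t * ∑ j, y j) (∑ j, y j) 0 := by
        simpa using ((hasDerivAt_id (0:ℝ)).mul_const (∑ j, y j)).const_add (∑ j, r j)
      have := ((l1.fun_mul ((l2.fun_mul l3).const_add (s ^ 2))).fun_sub l2).fun_add (l4.fun_sub l5)
      convert this using 1
      simp only [Dn]; ring
  have huniq := hcomp.unique hdir
  rw [← huniq, hc0]
  rfl

theorem GG_inv {V : ι → ι → ℝ} (hV : ∀ i j, 0 ≤ V i j) (hc : SC V) {s : ℝ} (hs : 0 < s)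
    {q r : ι → ℝ} (h : Sol V s q r) (hne : ¬ (q = 0 ∧ r = 0)) [Nonempty ι] :
    (fderiv ℝ (GG V) (s, (q, r)) ∘L .inr ℝ ℝ ((ι → ℝ) × (ι → ℝ))).IsInvertible := by
  set L := (fderiv ℝ (GG V) (s, (q, r)) ∘L .inr ℝ ℝ ((ι → ℝ) × (ι → ℝ))) with hL
  have hinj : Function.Injective L := by
    rw [injective_iff_map_eq_zero]
    rintro ⟨x, y⟩ hxy
    rw [hL, GG_deriv] at hxy
    obtain ⟨h1, h2⟩ := ker_triv hV hc hs h hne
      (fun i => congrFun (congrArg Prod.fst hxy) i)
      (fun i => congrFun (congrArg Prod.snd hxy) i)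
    rw [h1, h2]; rfl
  refine ⟨(LinearEquiv.ofInjectiveEndo (L : ((ι → ℝ) × (ι → ℝ)) →ₗ[ℝ] ((ι → ℝ) × (ι → ℝ)))
    hinj).toContinuousLinearEquiv, ?_⟩
  refine ContinuousLinearMap.ext fun v => ?_
  rfl

/-- Analyticity of the selected solution. -/
theorem sol_analytic {V : ι → ι → ℝ} (hV : ∀ i j, 0 ≤ V i j) (hc : SC V) [Nonempty ι]
    {R : ℝ} {q r : ℝ → ι → ℝ} (h : ∀ s, 0 < s → s < R → Sol V s (q s) (r s))
    (hne : ∀ s, 0 < s → s < R → ¬ (q s = 0 ∧ r s = 0)) {s : ℝ} (hs : 0 < s) (hsR : s < R) :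
    AnalyticAt ℝ (fun s => (q s, r s)) s := by
  have hcd : ContDiffAt ℝ ω (GG V) (s, (q s, r s)) := (GG_contDiff V).contDiffAt
  have hinv := GG_inv hV hc hs (h s hs hsR) (hne s hs hsR)
  have hω : (ω : ℕ∞ω) ≠ 0 := by simp
  set ψ := hcd.implicitFunction hω hinv with hψ
  have hψ0 : ψ s = (q s, r s) := hcd.implicitFunction_apply_self hω hinv
  have hψd : ContDiffAt ℝ ω ψ s := hcd.contDiffAt_implicitFunction hω hinv
  have hev : ∀ᶠ t in 𝓝 s, GG V (t, ψ t) = GG V (s, (q s, r s)) :=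
    hcd.eventually_apply_implicitFunction hω hinv
  obtain ⟨p1, p2, -, -⟩ := (h s hs hsR).pos hV hc hs (hne s hs hsR)
  have hcont : ContinuousAt ψ s := hψd.continuousAt
  have hpos1 : ∀ᶠ t in 𝓝 s, ∀ i, 0 < (ψ t).1 i := by
    rw [Filter.eventually_all]
    intro i
    have hci : ContinuousAt (fun t => (ψ t).1 i) s := by
      have : Continuous fun z : (ι → ℝ) × (ι → ℝ) => z.1 i := by fun_prop
      exact this.continuousAt.comp hcont
    refine hci.eventually (lt_mem_nhds ?_)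
    show 0 < (ψ s).1 i
    rw [hψ0]; exact p1 i
  have hpos2 : ∀ᶠ t in 𝓝 s, ∀ i, 0 < (ψ t).2 i := by
    rw [Filter.eventually_all]
    intro i
    have hci : ContinuousAt (fun t => (ψ t).2 i) s := by
      have : Continuous fun z : (ι → ℝ) × (ι → ℝ) => z.2 i := by fun_prop
      exact this.continuousAt.comp hcont
    refine hci.eventually (lt_mem_nhds ?_)
    show 0 < (ψ s).2 i
    rw [hψ0]; exact p2 i
  have h0 : GG V (s, (q s, r s)) = 0 :=
    GG_sol (h s hs hsR) (Dn_pos hV hs (h s hs hsR).q0 (h s hs hsR).r0)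
  have heq : ψ =ᶠ[𝓝 s] fun s => (q s, r s) := by
    filter_upwards [hev, hpos1, hpos2, lt_mem_nhds hs, gt_mem_nhds hsR] with t ht h1 h2 ht0 htR
    rw [h0] at ht
    have hsol : Sol V t (ψ t).1 (ψ t).2 := sol_of_GG hV ht0 h1 h2 ht
    have hne2 : ¬ ((ψ t).1 = 0 ∧ (ψ t).2 = 0) := by
      rintro ⟨h3, -⟩
      obtain ⟨i⟩ := (inferInstance : Nonempty ι)
      have := h1 i
      rw [h3] at this
      exact lt_irrefl _ this
    obtain ⟨e1, e2⟩ := (h t ht0 htR).unique hV hc ht0 hsol (hne t ht0 htR) hne2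
    exact Prod.ext e1 e2
  exact hψd.analyticAt.congr heq

/-- the distribution function -/
noncomputable def FF (V : ι → ι → ℝ) (q r : ι → ℝ) : ℝ :=
  1 - (1 / (Fintype.card ι : ℝ)) * ∑ i, q i * pt V r i

theorem FF_analytic {V : ι → ι → ℝ} {q r : ℝ → ι → ℝ} {s : ℝ}
    (h : AnalyticAt ℝ (fun s => (q s, r s)) s) : AnalyticAt ℝ (fun s => FF V (q s) (r s)) s := by
  have hg : ContDiff ℝ ω (fun z : (ι → ℝ) × (ι → ℝ) => FF V z.1 z.2) := by
    unfold FF pt
    fun_prop
  have := (hg.contDiffAt (x := (q s, r s))).comp s h.contDiffAt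
  exact this.analyticAt

theorem FF_eq {V : ι → ι → ℝ} (hV : ∀ i j, 0 ≤ V i j) {s : ℝ} (hs : 0 < s)
    {q r : ι → ℝ} (h : Sol V s q r) [Nonempty ι] :
    FF V q r = (1 / (Fintype.card ι : ℝ)) * ∑ i, al V s q r i := by
  have hD := Dn_pos hV hs h.q0 h.r0
  have e : ∀ i, q i * pt V r i = 1 - al V s q r i := fun i => by
    unfold al
    rw [h.e1 i]
    have := (hD i).ne'
    field_simp
    unfold Dn
    ring
  unfold FF
  rw [Finset.sum_congr rfl fun i _ => e i, Finset.sum_sub_distrib]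
  simp only [Finset.sum_const, Finset.card_univ, nsmul_eq_mul, mul_one]
  have hc : (Fintype.card ι : ℝ) ≠ 0 := by positivity
  field_simp
  ring

theorem FF_nonneg {V : ι → ι → ℝ} (hV : ∀ i j, 0 ≤ V i j) {s : ℝ} (hs : 0 < s)
    {q r : ι → ℝ} (h : Sol V s q r) [Nonempty ι] : 0 ≤ FF V q r := by
  rw [FF_eq hV hs h]
  have hD := Dn_pos hV hs h.q0 h.r0
  refine mul_nonneg (by positivity) (Finset.sum_nonneg fun i _ => ?_)
  exact div_nonneg (by positivity) (hD i).le

theorem FF_lt_one {V : ι → ι → ℝ} (hV : ∀ i j, 0 ≤ V i j) (hc : SC V) {s : ℝ} (hs : 0 < s)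
    {q r : ι → ℝ} (h : Sol V s q r) (hne : ¬ (q = 0 ∧ r = 0)) [Nonempty ι] : FF V q r < 1 := by
  obtain ⟨hq, hr, hp, ht⟩ := h.pos hV hc hs hne
  unfold FF
  have h1 : 0 < ∑ i, q i * pt V r i :=
    Finset.sum_pos (fun i _ => mul_pos (hq i) (ht i)) Finset.univ_nonempty
  have h2 : 0 < (1 / (Fintype.card ι : ℝ)) := by positivity
  have := mul_pos h2 h1
  linarith

end N704VP
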