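import Mathlib
import Pool.Agent.N704.VP2
set_option autoImplicit false

/-! Perron vector, spectral radius and the behaviour near the spectral edge. -/

namespace N704VP
open Finset Topology Filter
open scoped ContDiff

section PF

theorem pf_pos {ι : Type*} [Fintype ι] (Q : Matrix ι ι ℝ) (hQ : ∀ i j, 0 < Q i j)
    (z : ι → ℝ) (hz : ∀ i, 0 ≤ z i) (hne : z ≠ 0) (i : ι) : 0 < Q.mulVec z i := by
  obtain ⟨j, hj⟩ : ∃ j, z j ≠ 0 := by
    by_contra h
    push Not at h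
    exact hne (funext h)
  have hj' : 0 < z j := lt_of_le_of_ne (hz j) (Ne.symm hj)
  unfold Matrix.mulVec dotProduct
  refine Finset.sum_pos' (fun k _ => mul_nonneg (hQ i k).le (hz k)) ⟨j, Finset.mem_univ j, ?_⟩
  exact mul_pos (hQ i j) hj'

theorem pf_pow {ι : Type*} [Fintype ι] [DecidableEq ι] (A : Matrix ι ι ℝ) (v : ι → ℝ) (L : ℝ)
    (h : A.mulVec v = L • v) (l : ℕ) : (A ^ l).mulVec v = L ^ l • v := by
  induction l with
  | zero => simp
  | succ l ih =>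
    rw [pow_succ, ← Matrix.mulVec_mulVec, h, Matrix.mulVec_smul, ih, smul_smul, pow_succ, mul_comm]

theorem pf_sum {ι : Type*} [Fintype ι] [DecidableEq ι] (A : Matrix ι ι ℝ) (v : ι → ℝ) (L : ℝ)
    (h : A.mulVec v = L • v) (p : ℕ) :
    (∑ l ∈ Finset.range p, A ^ l).mulVec v = (∑ l ∈ Finset.range p, L ^ l) • v := by
  rw [Matrix.sum_mulVec, Finset.sum_smul]
  exact Finset.sum_congr rfl fun l _ => pf_pow A v L h l

theorem pf_le {ι : Type*} [Fintype ι] (A : Matrix ι ι ℝ)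
    (h0 : ∀ i j, 0 ≤ A i j) (w : ι → ℝ) (hw : ∀ i, 0 ≤ w i) (hs : 0 < ∑ i, w i) (r : ℝ)
    (hr : ∀ i, r * w i ≤ A.mulVec w i) : r ≤ ∑ i, ∑ j, A i j := by
  have h1 : r * ∑ i, w i ≤ (∑ i, ∑ j, A i j) * ∑ i, w i := by
    rw [Finset.mul_sum]
    calc ∑ i, r * w i ≤ ∑ i, A.mulVec w i := Finset.sum_le_sum fun i _ => hr i
      _ = ∑ i, ∑ j, A i j * w j := rfl
      _ ≤ ∑ i, ∑ j, A i j * ∑ k, w k := by
          refine Finset.sum_le_sum fun i _ => Finset.sum_le_sum fun j _ => ?_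
          exact mul_le_mul_of_nonneg_left
            (Finset.single_le_sum (f := w) (fun k _ => hw k) (Finset.mem_univ j)) (h0 i j)
      _ = (∑ i, ∑ j, A i j) * ∑ i, w i := by
          rw [Finset.sum_mul]
          exact Finset.sum_congr rfl fun i _ => by rw [Finset.sum_mul]
  exact le_of_mul_le_mul_right h1 hs

/-- Maximal Collatz-Wielandt number. -/
theorem pf_max {ι : Type*} [Fintype ι] [DecidableEq ι] [Nonempty ι] (A : Matrix ι ι ℝ)
    (h0 : ∀ i j, 0 ≤ A i j) :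
    ∃ (v : ι → ℝ) (L : ℝ), (∀ i, 0 ≤ v i) ∧ ∑ i, v i = 1 ∧ 0 ≤ L ∧ (∀ i, L * v i ≤ A.mulVec v i) ∧
      ∀ (w : ι → ℝ) (r : ℝ), (∀ i, 0 ≤ w i) → 0 < ∑ i, w i → 0 ≤ r →
        (∀ i, r * w i ≤ A.mulVec w i) → r ≤ L := by
  set R : ℝ := ∑ i, ∑ j, A i j with hR
  have hR0 : 0 ≤ R := Finset.sum_nonneg fun i _ => Finset.sum_nonneg fun j _ => h0 i j
  set K : Set ((ι → ℝ) × ℝ) := (stdSimplex ℝ ι ×ˢ Set.Icc 0 R) ∩
    {x | ∀ i, x.2 * x.1 i ≤ A.mulVec x.1 i} with hK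
  have hmc : ∀ i, Continuous fun x : (ι → ℝ) × ℝ => A.mulVec x.1 i := by
    intro i
    unfold Matrix.mulVec dotProduct
    fun_prop
  have hclosed : IsClosed {x : (ι → ℝ) × ℝ | ∀ i, x.2 * x.1 i ≤ A.mulVec x.1 i} := by
    have : {x : (ι → ℝ) × ℝ | ∀ i, x.2 * x.1 i ≤ A.mulVec x.1 i} =
        ⋂ i, {x : (ι → ℝ) × ℝ | x.2 * x.1 i ≤ A.mulVec x.1 i} := by
      ext x; simp
    rw [this]
    refine isClosed_iInter fun i => isClosed_le ?_ (hmc i)
    fun_prop
  have hcomp : IsCompact K :=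
    ((isCompact_stdSimplex ℝ ι).prod isCompact_Icc).inter_right hclosed
  have hne : K.Nonempty := by
    obtain ⟨i0⟩ := (inferInstance : Nonempty ι)
    refine ⟨(Pi.single i0 1, 0), ⟨⟨single_mem_stdSimplex ℝ i0, ⟨le_refl _, hR0⟩⟩, ?_⟩⟩
    intro i
    simp only [zero_mul]
    unfold Matrix.mulVec dotProduct
    refine Finset.sum_nonneg fun j _ => mul_nonneg (h0 i j) ?_
    by_cases h : j = i0
    · subst h; simp
    · simp [Pi.single_eq_of_ne h]
  obtain ⟨x, hxK, hxmax⟩ := hcomp.exists_isMaxOn hne (f := fun x => x.2) continuous_snd.continuousOn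
  obtain ⟨⟨hx1, hx2⟩, hx3⟩ := hxK
  refine ⟨x.1, x.2, hx1.1, hx1.2, hx2.1, hx3, ?_⟩
  intro w r hw hs hr0 hr
  have hrR : r ≤ R := pf_le A h0 w hw hs r hr
  have hmem : (((∑ i, w i)⁻¹ • w, r) : (ι → ℝ) × ℝ) ∈ K := by
    refine ⟨⟨⟨fun i => ?_, ?_⟩, ⟨hr0, hrR⟩⟩, ?_⟩
    · exact mul_nonneg (inv_nonneg.mpr hs.le) (hw i)
    · show ∑ i, (∑ i, w i)⁻¹ * w i = 1
      rw [← Finset.mul_sum]
      exact inv_mul_cancel₀ hs.ne'
    · intro i
      show r * ((∑ i, w i)⁻¹ * w i) ≤ A.mulVec ((∑ i, w i)⁻¹ • w) i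
      rw [Matrix.mulVec_smul]
      show r * ((∑ i, w i)⁻¹ * w i) ≤ (∑ i, w i)⁻¹ * A.mulVec w i
      have := mul_le_mul_of_nonneg_left (hr i) (inv_nonneg.mpr hs.le)
      calc r * ((∑ i, w i)⁻¹ * w i) = (∑ i, w i)⁻¹ * (r * w i) := by ring
        _ ≤ _ := this
  exact hxmax hmem

theorem perron {ι : Type*} [Fintype ι] [DecidableEq ι] [Nonempty ι] (A : Matrix ι ι ℝ)
    (h0 : ∀ i j, 0 ≤ A i j) (p : ℕ) (h1 : ∀ i j, 0 < (∑ l ∈ Finset.range p, A ^ l) i j)
    (h2 : ∃ i j, 0 < A i j) :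
    ∃ (v : ι → ℝ) (Λ : ℝ), (∀ i, 0 < v i) ∧ 0 < Λ ∧ A.mulVec v = Λ • v := by
  obtain ⟨v, L, hv0, hvs, hL0, hLv, hmax⟩ := pf_max A h0
  set Q : Matrix ι ι ℝ := ∑ l ∈ Finset.range p, A ^ l with hQ
  have hvne : v ≠ 0 := by
    rintro rfl
    simp at hvs
  have hcomm : A * Q = Q * A := by
    rw [hQ, Finset.mul_sum, Finset.sum_mul]
    exact Finset.sum_congr rfl fun l _ => by rw [← pow_succ, ← pow_succ']
  have hAv : A.mulVec v = L • v := by
    by_contra hne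
    set z : ι → ℝ := A.mulVec v - L • v with hz
    have hz0 : ∀ i, 0 ≤ z i := by
      intro i
      show 0 ≤ A.mulVec v i - L * v i
      linarith [hLv i]
    have hzne : z ≠ 0 := fun h => hne (sub_eq_zero.mp h)
    have hQz := pf_pos Q h1 z hz0 hzne
    have hQv := pf_pos Q h1 v hv0 hvne
    obtain ⟨i0, hi0⟩ := Finite.exists_min (fun i => Q.mulVec z i / Q.mulVec v i)
    set ε : ℝ := Q.mulVec z i0 / Q.mulVec v i0 with hε
    have hε0 : 0 < ε := div_pos (hQz i0) (hQv i0)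
    have hkey : A.mulVec (Q.mulVec v) = L • Q.mulVec v + Q.mulVec z := by
      rw [hz, Matrix.mulVec_sub, Matrix.mulVec_smul, Matrix.mulVec_mulVec, Matrix.mulVec_mulVec,
        hcomm]
      abel
    have h3 := hmax (Q.mulVec v) (L + ε) (fun i => (hQv i).le)
      (Finset.sum_pos (fun i _ => hQv i) Finset.univ_nonempty) (by linarith) (fun i => by
        rw [hkey]
        show (L + ε) * Q.mulVec v i ≤ L * Q.mulVec v i + Q.mulVec z i
        have := hi0 i
        rw [le_div_iff₀ (hQv i)] at this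
        linarith)
    linarith
  have hv : ∀ i, 0 < v i := by
    intro i
    have h3 := pf_pos Q h1 v hv0 hvne i
    rw [pf_sum A v L hAv p] at h3
    have h4 : 0 < (∑ l ∈ Finset.range p, L ^ l) * v i := h3
    rcases (hv0 i).lt_or_eq with h5 | h5
    · exact h5
    · rw [← h5, mul_zero] at h4
      exact absurd h4 (lt_irrefl _)
  obtain ⟨i0, j0, hij⟩ := h2
  have hL : 0 < L := by
    have h3 : A.mulVec v i0 = L * v i0 := by rw [hAv]; rfl
    have h4 : 0 < A.mulVec v i0 := by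
      unfold Matrix.mulVec dotProduct
      exact Finset.sum_pos' (fun k _ => mul_nonneg (h0 i0 k) (hv0 k))
        ⟨j0, Finset.mem_univ j0, mul_pos hij (hv j0)⟩
    rw [h3] at h4
    exact (pos_iff_pos_of_mul_pos h4).mpr (hv i0)
  exact ⟨v, L, hv, hL, hAv⟩

end PF

variable {ι : Type*} [Fintype ι]

theorem pow_nonneg' [DecidableEq ι] {V : Matrix ι ι ℝ} (hV : ∀ i j, 0 ≤ V i j) (l : ℕ) :
    ∀ i j, 0 ≤ (V ^ l) i j := by
  induction l with
  | zero => intro i j; rw [pow_zero, Matrix.one_apply]; split <;> norm_num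
  | succ l ih =>
    intro i j
    rw [pow_succ, Matrix.mul_apply]
    exact Finset.sum_nonneg fun k _ => mul_nonneg (ih i k) (hV k j)

theorem exists_pow_pos [DecidableEq ι] {V : Matrix ι ι ℝ} (hV : ∀ i j, 0 ≤ V i j)
    {i j : ι} (h : Relation.ReflTransGen (fun a b => 0 < V a b) i j) : ∃ l, 0 < (V ^ l) i j := by
  induction h with
  | refl => exact ⟨0, by simp⟩
  | tail _ hab ih =>
    obtain ⟨l, hl⟩ := ih
    refine ⟨l + 1, ?_⟩
    rw [pow_succ, Matrix.mul_apply]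
    exact Finset.sum_pos' (fun k _ => mul_nonneg (pow_nonneg' hV l _ k) (hV k _))
      ⟨_, Finset.mem_univ _, mul_pos hl hab⟩

theorem pf_exists [Nonempty ι] {V : ι → ι → ℝ} (hV : ∀ i j, 0 ≤ V i j) (hc : SC V)
    (hp : ∃ i j, 0 < V i j) :
    ∃ (w : ι → ℝ) (Λ : ℝ), (∀ i, 0 < w i) ∧ 0 < Λ ∧ ∀ i, pt V w i = Λ * w i := by
  classical
  have h1 : ∀ x : ι × ι, ∃ l, 0 < ((Matrix.of V) ^ l) x.1 x.2 := fun x =>
    exists_pow_pos (V := Matrix.of V) hV (hc x.1 x.2)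
  choose f hf using h1
  set p := (Finset.univ.sup f) + 1 with hpdef
  obtain ⟨v, Λ, hv, hΛ, hAv⟩ := perron (Matrix.of V) hV p (fun i j => by
    rw [Matrix.sum_apply]
    refine Finset.sum_pos' (fun l _ => pow_nonneg' (V := Matrix.of V) hV l i j)
      ⟨f (i, j), ?_, hf (i, j)⟩
    rw [Finset.mem_range, hpdef, Nat.lt_succ_iff]
    exact Finset.le_sup (Finset.mem_univ (i, j))) hp
  exact ⟨v, Λ, hv, hΛ, fun i => congrFun hAv i⟩

/-- the spectral radius equals the Perron eigenvalue -/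
theorem spectralRadius_eq [DecidableEq ι] [Nonempty ι] {V : Matrix ι ι ℝ}
    (hV : ∀ i j, 0 ≤ V i j) {w : ι → ℝ} {Λ : ℝ} (hw : ∀ i, 0 < w i) (hΛ : 0 < Λ)
    (h : ∀ i, pt V w i = Λ * w i) :
    spectralRadius ℂ (V.map (algebraMap ℝ ℂ)) = ENNReal.ofReal Λ := by
  set M : Matrix ι ι ℂ := V.map (algebraMap ℝ ℂ) with hM
  have hmem : ∀ k : ℂ, k ∈ spectrum ℂ M ↔ ∃ u : ι → ℂ, u ≠ 0 ∧ M.mulVec u = k • u := by
    intro k
    rw [spectrum.mem_iff, Matrix.isUnit_iff_isUnit_det, isUnit_iff_ne_zero, not_not,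
      ← Matrix.exists_mulVec_eq_zero_iff]
    refine exists_congr fun u => and_congr_right fun _ => ?_
    rw [Matrix.sub_mulVec, sub_eq_zero, eq_comm, Algebra.algebraMap_eq_smul_one,
      Matrix.smul_mulVec, Matrix.one_mulVec]
  apply le_antisymm
  · refine iSup₂_le fun k hk => ?_
    obtain ⟨u, hu, hku⟩ := (hmem k).1 hk
    -- compare
    obtain ⟨i0, hi0⟩ := Finite.exists_max (fun i => ‖u i‖ / w i)
    set c := ‖u i0‖ / w i0 with hc
    have hcle : ∀ i, ‖u i‖ ≤ c * w i := fun i => (div_le_iff₀ (hw i)).1 (hi0 i)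
    have hc0 : 0 < c := by
      obtain ⟨i, hi⟩ := Function.ne_iff.1 hu
      have h1 : 0 < ‖u i‖ := norm_pos_iff.2 hi
      have h2 := hcle i
      by_contra h3
      push Not at h3
      have := mul_nonpos_of_nonpos_of_nonneg h3 (hw i).le
      linarith
    have h1 : ‖k‖ * ‖u i0‖ ≤ Λ * (c * w i0) := by
      have h2 : M.mulVec u i0 = k * u i0 := by rw [hku]; rfl
      calc ‖k‖ * ‖u i0‖ = ‖k * u i0‖ := (norm_mul _ _).symm
        _ = ‖∑ j, (V i0 j : ℂ) * u j‖ := by rw [← h2]; rfl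
        _ ≤ ∑ j, ‖(V i0 j : ℂ) * u j‖ := norm_sum_le _ _
        _ ≤ ∑ j, V i0 j * (c * w j) := by
            refine Finset.sum_le_sum fun j _ => ?_
            rw [norm_mul, Complex.norm_real, Real.norm_of_nonneg (hV i0 j)]
            exact mul_le_mul_of_nonneg_left (hcle j) (hV i0 j)
        _ = c * pt V w i0 := by
            unfold pt
            rw [Finset.mul_sum]
            exact Finset.sum_congr rfl fun j _ => by ring
        _ = Λ * (c * w i0) := by rw [h i0]; ring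
    have h2 : ‖u i0‖ = c * w i0 := by rw [hc, div_mul_cancel₀ _ (hw i0).ne']
    rw [h2] at h1
    have h3 : ‖k‖ ≤ Λ := le_of_mul_le_mul_right h1 (mul_pos hc0 (hw i0))
    rw [← ENNReal.ofReal_coe_nnreal, coe_nnnorm]
    exact ENNReal.ofReal_le_ofReal h3
  · have hk : (Λ : ℂ) ∈ spectrum ℂ M := by
      rw [hmem]
      refine ⟨fun i => (w i : ℂ), ?_, ?_⟩
      · intro h0
        obtain ⟨i⟩ := (inferInstance : Nonempty ι)
        have := congrFun h0 i
        simp only [Pi.zero_apply, Complex.ofReal_eq_zero] at this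
        exact (hw i).ne' this
      · funext i
        have h2 := congrArg (fun x : ℝ => (x : ℂ)) (h i)
        simp only [pt] at h2
        push_cast at h2
        exact h2
    have h1 : (‖(Λ : ℂ)‖₊ : ENNReal) ≤ spectralRadius ℂ M :=
      le_iSup₂ (f := fun (k : ℂ) (_ : k ∈ spectrum ℂ M) => (‖k‖₊ : ENNReal)) (Λ : ℂ) hk
    refine le_trans (le_of_eq ?_) h1
    rw [← ENNReal.ofReal_coe_nnreal, coe_nnnorm, Complex.norm_real, Real.norm_of_nonneg hΛ.le]

theorem sol_div {V : ι → ι → ℝ} (hV : ∀ i j, 0 ≤ V i j) {s : ℝ} (hs : 0 < s)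
    {q r : ι → ℝ} (h : Sol V s q r) (i : ι) : s ^ 2 * q i = al V s q r i * ph V q i := by
  have hD := Dn_pos hV hs h.q0 h.r0 i
  unfold al
  have := h.e1 i
  rw [eq_div_iff hD.ne'] at this
  field_simp
  linear_combination this

/-- If the distribution function is constant up to the edge, the constant is `1`. -/
theorem limit_one [Nonempty ι] {V : ι → ι → ℝ} (hV : ∀ i j, 0 ≤ V i j) (hc : SC V) {w : ι → ℝ} {Λ : ℝ}
    (hw : ∀ i, 0 < w i) (hΛ : 0 < Λ) (hVw : ∀ i, pt V w i = Λ * w i) {q r : ℝ → ι → ℝ}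
    (h : ∀ s, 0 < s → s < √Λ → Sol V s (q s) (r s))
    (hne : ∀ s, 0 < s → s < √Λ → ¬ (q s = 0 ∧ r s = 0)) (c : ℝ)
    (hconst : ∀ s, 0 < s → s < √Λ → FF V (q s) (r s) = c) : c = 1 := by
  have hR : 0 < √Λ := Real.sqrt_pos.2 hΛ
  obtain ⟨s, -, hs, hslim⟩ := exists_seq_strictMono_tendsto' hR
  have hs0 : ∀ m, 0 < s m := fun m => (hs m).1
  have hsR : ∀ m, s m < √Λ := fun m => (hs m).2
  set Q : ℕ → ℝ := fun m => ∑ i, q (s m) i with hQ
  have hpos := fun m => (h (s m) (hs0 m) (hsR m)).pos hV hc (hs0 m) (hne (s m) (hs0 m) (hsR m))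
  have hQ0 : ∀ m, 0 < Q m := fun m => Finset.sum_pos (fun i _ => (hpos m).1 i) Finset.univ_nonempty
  set x : ℕ → (ι → ℝ) × (ι → ℝ) := fun m =>
    (fun i => q (s m) i / Q m, fun i => al V (s m) (q (s m)) (r (s m)) i) with hx
  have hxK : ∀ m, x m ∈ (stdSimplex ℝ ι) ×ˢ (Set.Icc (0 : ι → ℝ) 1) := by
    intro m
    have hD := Dn_pos hV (hs0 m) (h (s m) (hs0 m) (hsR m)).q0 (h (s m) (hs0 m) (hsR m)).r0
    refine ⟨⟨fun i => ?_, ?_⟩, ⟨fun i => ?_, fun i => ?_⟩⟩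
    · exact div_nonneg ((hpos m).1 i).le (hQ0 m).le
    · show ∑ i, q (s m) i / Q m = 1
      rw [← Finset.sum_div]; exact div_self (hQ0 m).ne'
    · exact div_nonneg (by positivity) (hD i).le
    · show al V (s m) (q (s m)) (r (s m)) i ≤ 1
      unfold al
      rw [div_le_one (hD i)]
      unfold Dn
      have := mul_pos ((hpos m).2.2.2 i) ((hpos m).2.2.1 i)
      linarith
  obtain ⟨⟨u, a⟩, hua, φ, hφ, hlim⟩ :=
    (((isCompact_stdSimplex ℝ ι).prod isCompact_Icc).tendsto_subseq hxK)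
  obtain ⟨⟨hu0, hu1⟩, ha0, ha1⟩ := hua
  have hl1 : ∀ i, Tendsto (fun m => (x (φ m)).1 i) atTop (𝓝 (u i)) := fun i => by
    have : Continuous fun z : (ι → ℝ) × (ι → ℝ) => z.1 i := by fun_prop
    exact (this.tendsto (u, a)).comp hlim
  have hl2 : ∀ i, Tendsto (fun m => (x (φ m)).2 i) atTop (𝓝 (a i)) := fun i => by
    have : Continuous fun z : (ι → ℝ) × (ι → ℝ) => z.2 i := by fun_prop
    exact (this.tendsto (u, a)).comp hlim
  have hl3 : Tendsto (fun m => s (φ m)) atTop (𝓝 (√Λ)) := hslim.comp hφ.tendsto_atTop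
  have hl4 : ∀ i, Tendsto (fun m => ph V (x (φ m)).1 i) atTop (𝓝 (ph V u i)) := fun i => by
    have : Continuous fun z : (ι → ℝ) × (ι → ℝ) => ph V z.1 i := by unfold ph; fun_prop
    exact (this.tendsto (u, a)).comp hlim
  -- limit relation
  have hrel : ∀ i, Λ * u i = a i * ph V u i := fun i => by
    have e : ∀ m, s (φ m) ^ 2 * (x (φ m)).1 i = (x (φ m)).2 i * ph V (x (φ m)).1 i := fun m => by
      have h1 := sol_div hV (hs0 (φ m)) (h (s (φ m)) (hs0 _) (hsR _)) i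
      have h2 : ph V (x (φ m)).1 i = ph V (q (s (φ m))) i / Q (φ m) := by
        unfold ph
        rw [Finset.sum_div]
        exact Finset.sum_congr rfl fun k _ => by rw [hx]; ring
      rw [h2]
      show s (φ m) ^ 2 * (q (s (φ m)) i / Q (φ m)) =
        al V (s (φ m)) (q (s (φ m))) (r (s (φ m))) i * (ph V (q (s (φ m))) i / Q (φ m))
      rw [← mul_div_assoc, ← mul_div_assoc, h1]
    have t1 : Tendsto (fun m => s (φ m) ^ 2 * (x (φ m)).1 i) atTop (𝓝 (√Λ ^ 2 * u i)) :=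
      (hl3.pow 2).mul (hl1 i)
    have t2 : Tendsto (fun m => (x (φ m)).2 i * ph V (x (φ m)).1 i) atTop (𝓝 (a i * ph V u i)) :=
      (hl2 i).mul (hl4 i)
    rw [Real.sq_sqrt hΛ.le] at t1
    have : (fun m => s (φ m) ^ 2 * (x (φ m)).1 i) = fun m => (x (φ m)).2 i * ph V (x (φ m)).1 i :=
      funext e
    rw [this] at t1
    exact tendsto_nhds_unique t1 t2
  have hcrel : c = (1 / (Fintype.card ι : ℝ)) * ∑ i, a i := by
    have t1 : Tendsto (fun m => (1 / (Fintype.card ι : ℝ)) * ∑ i, (x (φ m)).2 i) atTop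
        (𝓝 ((1 / (Fintype.card ι : ℝ)) * ∑ i, a i)) :=
      (tendsto_finsetSum _ fun i _ => hl2 i).const_mul _
    have : (fun m => (1 / (Fintype.card ι : ℝ)) * ∑ i, (x (φ m)).2 i) = fun _ => c := by
      funext m
      rw [← hconst (s (φ m)) (hs0 _) (hsR _), FF_eq hV (hs0 (φ m)) (h _ (hs0 _) (hsR _))]
    rw [this] at t1
    exact tendsto_nhds_unique tendsto_const_nhds t1
  -- pairing with w
  have hpair : ∑ i, (1 - a i) * ph V u i * w i = 0 := by
    have e1 : ∑ i, ph V u i * w i = Λ * ∑ i, u i * w i := by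
      rw [ph_comm, Finset.mul_sum]
      exact Finset.sum_congr rfl fun i _ => by rw [hVw i]; ring
    have e2 : ∑ i, a i * ph V u i * w i = Λ * ∑ i, u i * w i := by
      rw [Finset.mul_sum]
      exact Finset.sum_congr rfl fun i _ => by rw [← hrel i]; ring
    have e3 : ∑ i, (1 - a i) * ph V u i * w i = ∑ i, ph V u i * w i - ∑ i, a i * ph V u i * w i := by
      rw [← Finset.sum_sub_distrib]
      exact Finset.sum_congr rfl fun i _ => by ring
    rw [e3, e1, e2, sub_self]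
  have hpu := fun i => ph_nonneg hV hu0 i
  have hz : ∀ i, (1 - a i) * ph V u i * w i = 0 := fun i =>
    (Finset.sum_eq_zero_iff_of_nonneg (fun i _ => mul_nonneg (mul_nonneg (by
      have := ha1 i; simp only [Pi.one_apply] at this; linarith) (hpu i)) (hw i).le)).1 hpair i
      (Finset.mem_univ i)
  have hph : ∀ i, ph V u i = Λ * u i := fun i => by
    have h1 := hz i
    rcases mul_eq_zero.1 h1 with h2 | h2
    · rw [hrel i]; linarith
    · exact absurd h2 (hw i).ne'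
  obtain ⟨i0, -, hi0⟩ := Finset.exists_lt_of_sum_lt (s := Finset.univ) (f := fun _ => (0:ℝ)) (g := u)
    (by rw [hu1]; simp)
  have hupos : ∀ i, 0 < u i := fun k => prop_fwd hc (T := fun i => 0 < u i) (fun a b hab ha => by
    have h1 := ph_pos_of hV hu0 hab ha
    rw [hph b] at h1
    exact (pos_iff_pos_of_mul_pos h1).1 hΛ) hi0 k
  have ha : ∀ i, a i = 1 := fun i => by
    have h1 := hrel i
    rw [hph i] at h1
    have h2 : 0 < Λ * u i := mul_pos hΛ (hupos i)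
    have h3 : (1 - a i) * (Λ * u i) = 0 := by linarith
    rcases mul_eq_zero.1 h3 with h4 | h4
    · linarith
    · exact absurd h4 h2.ne'
  rw [hcrel, Finset.sum_congr rfl fun i _ => ha i]
  simp

/-- The distribution function is not constant on any subinterval. -/
theorem not_const [Nonempty ι] {V : ι → ι → ℝ} (hV : ∀ i j, 0 ≤ V i j) (hc : SC V) {w : ι → ℝ} {Λ : ℝ}
    (hw : ∀ i, 0 < w i) (hΛ : 0 < Λ) (hVw : ∀ i, pt V w i = Λ * w i) {q r : ℝ → ι → ℝ}
    (h : ∀ s, 0 < s → s < √Λ → Sol V s (q s) (r s))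
    (hne : ∀ s, 0 < s → s < √Λ → ¬ (q s = 0 ∧ r s = 0)) {a b : ℝ} (ha : 0 ≤ a) (hab : a < b)
    (hb : b ≤ √Λ) (c : ℝ) (hcst : ∀ s, a < s → s < b → FF V (q s) (r s) = c) : False := by
  have hR : 0 < √Λ := Real.sqrt_pos.2 hΛ
  have han : AnalyticOnNhd ℝ (fun s => FF V (q s) (r s)) (Set.Ioo 0 (√Λ)) := fun s hs =>
    FF_analytic (sol_analytic hV hc h hne hs.1 hs.2)
  have hcn : AnalyticOnNhd ℝ (fun _ : ℝ => c) (Set.Ioo 0 (√Λ)) := fun s _ => analyticAt_const
  have hmid : (a + b) / 2 ∈ Set.Ioo 0 (√Λ) := ⟨by linarith, by linarith⟩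
  have hev : (fun s => FF V (q s) (r s)) =ᶠ[𝓝 ((a + b) / 2)] fun _ => c := by
    filter_upwards [lt_mem_nhds (show a < (a + b) / 2 by linarith),
      gt_mem_nhds (show (a + b) / 2 < b by linarith)] with t h1 h2
    exact hcst t h1 h2
  have hEq := han.eqOn_of_preconnected_of_eventuallyEq hcn isPreconnected_Ioo hmid hev
  have hall : ∀ s, 0 < s → s < √Λ → FF V (q s) (r s) = c := fun s h1 h2 => hEq ⟨h1, h2⟩
  have hc1 := limit_one hV hc hw hΛ hVw h hne c hall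
  have h1 : 0 < √Λ / 2 := by linarith
  have h2 : √Λ / 2 < √Λ := by linarith
  have h3 := FF_lt_one hV hc h1 (h _ h1 h2) (hne _ h1 h2)
  rw [hall _ h1 h2, hc1] at h3
  exact lt_irrefl _ h3

end N704VP
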