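import Mathlib
import Pool.Agent.N704.VP3
set_option autoImplicit false

/-! Support of a rotation invariant probability measure with nowhere locally constant radial
distribution function on `(0, R)`. -/

namespace N704VP
open MeasureTheory Metric Set Filter Topology

theorem support_rot (μ : Measure ℂ)
    (hrot : ∀ θ : ℝ, μ.map (fun z => Complex.exp (θ * Complex.I) * z) = μ) (θ : ℝ) (z : ℂ)
    (hz : z ∉ μ.support) : Complex.exp (θ * Complex.I) * z ∉ μ.support := by
  rw [Measure.notMem_support_iff_exists] at hz ⊢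
  obtain ⟨U, hU, hμU⟩ := hz
  obtain ⟨W, hWU, hWo, hzW⟩ := _root_.mem_nhds_iff.1 hU
  have hμW : μ W = 0 := measure_mono_null hWU hμU
  have hcont : Continuous fun z : ℂ => Complex.exp (((-θ : ℝ) : ℂ) * Complex.I) * z := by fun_prop
  refine ⟨(fun z => Complex.exp (((-θ : ℝ) : ℂ) * Complex.I) * z) ⁻¹' W, ?_, ?_⟩
  · refine (hWo.preimage hcont).mem_nhds ?_
    show Complex.exp (((-θ : ℝ) : ℂ) * Complex.I) * (Complex.exp (θ * Complex.I) * z) ∈ W
    rw [← mul_assoc, ← Complex.exp_add]
    push_cast
    have : -(θ : ℂ) * Complex.I + θ * Complex.I = 0 := by ring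
    rw [this, Complex.exp_zero, one_mul]
    exact hzW
  · rw [← Measure.map_apply hcont.measurable hWo.measurableSet, hrot (-θ)]
    exact hμW

theorem support_eq (μ : Measure ℂ) [IsProbabilityMeasure μ]
    (hrot : ∀ θ : ℝ, μ.map (fun z => Complex.exp (θ * Complex.I) * z) = μ) (R : ℝ) (hR : 0 ≤ R)
    (F : ℝ → ℝ) (hF : ∀ s, 0 < s → μ (closedBall 0 s) = ENNReal.ofReal (F s))
    (hF0 : ∀ s, 0 < s → s < R → 0 ≤ F s) (hF1 : ∀ s, 0 < s → R ≤ s → F s = 1)
    (hnc : ∀ a b c, 0 ≤ a → a < b → b ≤ R → (∀ s, a < s → s < b → F s = c) → False) :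
    μ.support = closedBall 0 R := by
  have hsub : μ.support ⊆ closedBall 0 R := by
    intro z hz
    by_contra hzR
    rw [mem_closedBall_zero_iff, not_le] at hzR
    have hs : 0 < (R + ‖z‖) / 2 := by linarith
    have h1 : μ (closedBall 0 ((R + ‖z‖) / 2)) = 1 := by
      rw [hF _ hs, hF1 _ hs (by linarith), ENNReal.ofReal_one]
    have h2 : μ (closedBall 0 ((R + ‖z‖) / 2))ᶜ = 0 := by
      rw [prob_compl_eq_zero_iff isClosed_closedBall.measurableSet]; exact h1
    have h3 : (closedBall (0:ℂ) ((R + ‖z‖) / 2))ᶜ ∈ 𝓝 z := by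
      refine isClosed_closedBall.isOpen_compl.mem_nhds ?_
      rw [mem_compl_iff, mem_closedBall_zero_iff, not_le]
      linarith
    have h4 := (Measure.mem_support_iff_forall z).1 hz _ h3
    rw [h2] at h4
    exact lt_irrefl _ h4
  refine Subset.antisymm hsub ?_
  rcases hR.eq_or_lt with hR0 | hR0
  · -- R = 0
    subst hR0
    obtain ⟨z, hz⟩ := Measure.nonempty_support (μ := μ) (IsProbabilityMeasure.ne_zero μ)
    have h1 := hsub hz
    rw [closedBall_zero, mem_singleton_iff] at h1
    rw [closedBall_zero, singleton_subset_iff, ← h1]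
    exact hz
  -- R > 0
  have hin : ∀ z : ℂ, 0 < ‖z‖ → ‖z‖ < R → z ∈ μ.support := by
    intro z hz0 hzR
    by_contra hz
    have ho : μ.supportᶜ ∈ 𝓝 z := Measure.isOpen_compl_support.mem_nhds hz
    obtain ⟨ε, hε, hball⟩ := Metric.mem_nhds_iff.1 ho
    set δ := min ε (min ‖z‖ (R - ‖z‖)) with hδ
    have hδ0 : 0 < δ := lt_min hε (lt_min hz0 (by linarith))
    have hδ1 : δ ≤ ε := min_le_left _ _
    have hδ2 : δ ≤ ‖z‖ := (min_le_right _ _).trans (min_le_left _ _)
    have hδ3 : δ ≤ R - ‖z‖ := (min_le_right _ _).trans (min_le_right _ _)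
    set An : Set ℂ := {w | |‖w‖ - ‖z‖| < δ} with hAn
    have hAsub : An ⊆ μ.supportᶜ := by
      intro w hw
      have hw' : |‖w‖ - ‖z‖| < δ := hw
      -- z' with norm ‖w‖ and argument of z
      set z' : ℂ := ((‖w‖ / ‖z‖ : ℝ) : ℂ) * z with hz'
      have hz'n : ‖z'‖ = ‖w‖ := by
        rw [hz', norm_mul, Complex.norm_real, Real.norm_of_nonneg (by positivity)]
        field_simp
      have hz'm : z' ∈ ball z ε := by
        rw [mem_ball, dist_eq_norm]
        have : z' - z = (((‖w‖ - ‖z‖) / ‖z‖ : ℝ) : ℂ) * z := by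
          rw [hz']; push_cast
          have : (‖z‖ : ℂ) ≠ 0 := by exact_mod_cast hz0.ne'
          field_simp
        rw [this, norm_mul, Complex.norm_real, Real.norm_eq_abs, abs_div, abs_of_pos hz0,
          div_mul_cancel₀ _ hz0.ne']
        linarith
      have hz's : z' ∉ μ.support := hball hz'm
      have hw0 : 0 < ‖w‖ := by
        have := (abs_lt.1 hw').1
        linarith
      have hz'0 : z' ≠ 0 := by
        rw [← norm_pos_iff, hz'n]; exact hw0
      -- rotation
      have hrotw : w = Complex.exp (((Complex.arg (w / z')) : ℝ) * Complex.I) * z' := by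
        have h1 : ‖w / z'‖ = 1 := by
          rw [norm_div, hz'n, div_self hw0.ne']
        have h2 := Complex.norm_mul_exp_arg_mul_I (w / z')
        rw [h1, Complex.ofReal_one, one_mul] at h2
        rw [h2, div_mul_cancel₀ _ hz'0]
      rw [mem_compl_iff, hrotw]
      exact support_rot μ hrot _ _ hz's
    have hA0 : μ An = 0 := measure_mono_null hAsub Measure.measure_compl_support
    refine hnc (‖z‖ - δ) (‖z‖ + δ) (F ‖z‖) (by linarith) (by linarith) (by linarith) ?_
    intro s hs1 hs2
    have hs0 : 0 < s := by linarith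
    have hle : ∀ x y : ℝ, 0 < x → 0 < y → x < R → y < R →
        (closedBall (0:ℂ) x ⊆ closedBall 0 y ∪ An) → F x ≤ F y := by
      intro x y hx hy hxR hyR hsub
      have h1 : μ (closedBall 0 x) ≤ μ (closedBall 0 y) := by
        calc μ (closedBall 0 x) ≤ μ (closedBall 0 y ∪ An) := measure_mono hsub
          _ ≤ μ (closedBall 0 y) + μ An := measure_union_le _ _
          _ = _ := by rw [hA0, add_zero]
      rw [hF x hx, hF y hy] at h1
      exact (ENNReal.ofReal_le_ofReal_iff (hF0 y hy hyR)).1 h1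
    have hsR : s < R := by linarith
    apply le_antisymm
    · apply hle s ‖z‖ hs0 hz0 hsR hzR
      intro w hw
      rw [mem_closedBall_zero_iff] at hw
      by_cases h : ‖w‖ ≤ ‖z‖
      · left; rwa [mem_closedBall_zero_iff]
      · right
        show |‖w‖ - ‖z‖| < δ
        push Not at h
        rw [abs_lt]; constructor <;> linarith
    · apply hle ‖z‖ s hz0 hs0 hzR hsR
      intro w hw
      rw [mem_closedBall_zero_iff] at hw
      by_cases h : ‖w‖ ≤ s
      · left; rwa [mem_closedBall_zero_iff]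
      · right
        show |‖w‖ - ‖z‖| < δ
        push Not at h
        rw [abs_lt]; constructor <;> linarith
  -- closure
  have hcl : closedBall (0:ℂ) R ⊆ closure (ball 0 R \ {0}) := by
    have h1 : closure (ball (0:ℂ) R) = closedBall 0 R := closure_ball 0 hR0.ne'
    have hd : Dense ({0}ᶜ : Set ℂ) := dense_compl_singleton 0
    have h2 : ball (0:ℂ) R ⊆ closure (ball 0 R \ {0}) := by
      have := hd.open_subset_closure_inter (t := ball (0:ℂ) R) isOpen_ball
      refine this.trans (closure_mono ?_)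
      intro x hx
      exact ⟨hx.1, hx.2⟩
    rw [← h1]
    exact closure_minimal h2 isClosed_closure
  refine hcl.trans ?_
  refine closure_minimal ?_ Measure.isClosed_support
  rintro z ⟨hz1, hz2⟩
  refine hin z (norm_pos_iff.2 hz2) ?_
  rwa [mem_ball_zero_iff] at hz1

end N704VP
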